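import Pool.Agent.Zk11.QQ.Zc
import Pool.Agent.Zk93.TE.Main

/-! The disorder average of the evolution. -/

set_option autoImplicit false

open scoped BigOperators Topology
open MeasureTheory Filter

namespace Pool.Agent.Zk93.TE

open Pool.Agent.Zk11.QD hiding ex ex_norm
open Pool.Agent.Zk60.LL.Dos (dos_mass)
open Pool.Agent.Zk11.QQ (Gc Gc_isG sh ex ex_norm Ph FZ quench sh_map sh_meas)

variable {d : ℕ}

/-- the truncated potential -/
def cl (b : ℝ) (ω : Zd d → ℝ) (x : Zd d) : ℝ := max (-b) (min b (ω x))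

theorem cl_bd {b : ℝ} (hb : 0 ≤ b) (ω : Zd d → ℝ) (x : Zd d) : |cl b ω x| ≤ b := by
  unfold cl
  rw [abs_le]
  exact ⟨le_max_left _ _, max_le (by linarith) (min_le_left _ _)⟩

theorem cl_eq {b : ℝ} {ω : Zd d → ℝ} (hω : ∀ x, |ω x| ≤ b) : cl b ω = ω := by
  funext x
  unfold cl
  have := abs_le.1 (hω x)
  rw [min_eq_right this.2, max_eq_right this.1]

theorem cl_sh (b : ℝ) (y : Zd d) (ω : Zd d → ℝ) : cl b (sh y ω) = sh y (cl b ω) := rfl

theorem it_meas (lam b : ℝ) (y : Zd d) (n : ℕ) (x : Zd d) :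
    Measurable fun ω : Zd d → ℝ => it lam (cl b ω) y n x := by
  induction n generalizing x with
  | zero => exact measurable_const
  | succ n ih =>
    have h1 : (fun ω : Zd d → ℝ => it lam (cl b ω) y (n + 1) x) = fun ω =>
        -∑ i : Fin d, ((it lam (cl b ω) y n (x + Pi.single i 1) - it lam (cl b ω) y n x) +
          (it lam (cl b ω) y n (x - Pi.single i 1) - it lam (cl b ω) y n x)) +
        ((lam * cl b ω x : ℝ) : ℂ) * it lam (cl b ω) y n x := rfl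
    rw [h1]
    have h2 : Measurable fun ω : Zd d → ℝ => cl b ω x := by
      unfold cl
      exact measurable_const.max (measurable_const.min (measurable_pi_apply x))
    refine Measurable.add (Measurable.neg ?_) ?_
    · exact Finset.measurable_fun_sum _ fun i _ =>
        ((ih _).sub (ih x)).add ((ih _).sub (ih x))
    · exact (Complex.measurable_ofReal.comp (measurable_const.mul h2)).mul (ih x)

theorem psi_meas {b : ℝ} (hb : 0 ≤ b) (lam : ℝ) (y : Zd d) (t : ℝ) (x : Zd d) :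
    Measurable fun ω : Zd d → ℝ => psi lam (cl b ω) y t x := by
  refine measurable_of_tendsto_metrizable' (atTop : Filter (Finset ℕ))
    (f := fun s ω => ∑ n ∈ s, co n t * it lam (cl b ω) y n x) (fun s => ?_) ?_
  · exact Finset.measurable_fun_sum _ fun n _ => (it_meas lam b y n x).const_mul _
  · rw [tendsto_pi_nhds]
    intro ω
    exact psi_hasSum (cl_bd hb ω) y t x

theorem psi_meas2 {b : ℝ} (hb : 0 ≤ b) (lam : ℝ) (y : Zd d) (x : Zd d) :
    Measurable fun p : ℝ × (Zd d → ℝ) => psi lam (cl b p.2) y p.1 x := by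
  have := measurable_uncurry_of_continuous_of_measurable
    (u := fun (t : ℝ) (ω : Zd d → ℝ) => psi lam (cl b ω) y t x)
    (fun ω => (psi_ev (cl_bd hb ω) y).cont x) (fun t => psi_meas hb lam y t x)
  exact this

/-- the profile for the canonical evolution -/
noncomputable def Spc (lam b : ℝ) (θ : Fin d → ℝ) (t : ℝ) (ω : Zd d → ℝ) : ℂ :=
  Sp θ (psi lam (cl b ω) 0) t

theorem Spc_meas2 {b : ℝ} (hb : 0 ≤ b) (lam : ℝ) (θ : Fin d → ℝ) :
    Measurable fun p : ℝ × (Zd d → ℝ) => Spc lam b θ p.1 p.2 := by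
  refine measurable_of_tendsto_metrizable' (atTop : Filter (Finset (Zd d)))
    (f := fun s p => ∑ x ∈ s, ex θ x * ((‖psi lam (cl b p.2) 0 p.1 x‖ ^ 2 : ℝ) : ℂ))
    (fun s => ?_) ?_
  · exact Finset.measurable_fun_sum _ fun x _ =>
      (Complex.measurable_ofReal.comp ((psi_meas2 hb lam 0 x).norm.pow_const 2)).const_mul _
  · rw [tendsto_pi_nhds]
    intro p
    exact (Sp_summable (psi_ev (cl_bd hb p.2) 0) θ p.1).of_norm.hasSum

theorem Spc_le {b : ℝ} (hb : 0 ≤ b) (lam : ℝ) (θ : Fin d → ℝ) (t : ℝ) (ω : Zd d → ℝ) :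
    ‖Spc lam b θ t ω‖ ≤ 1 := Sp_le (psi_ev (cl_bd hb ω) 0) θ t

/-- the profile started at `y` -/
theorem Sp_shift {lam b : ℝ} (hb : 0 ≤ b) (θ : Fin d → ℝ) (y : Zd d) (t : ℝ) (ω : Zd d → ℝ) :
    Sp θ (fun t x => psi lam (cl b ω) y t (x + y)) t = Spc lam b θ t (sh y ω) := by
  unfold Spc
  have h1 := (psi_ev (lam := lam) (cl_bd hb ω) y).shift
  have h2 := psi_ev (lam := lam) (cl_bd hb (sh y ω)) 0
  have h3 := ev_unique (cl_bd hb (sh y ω)) (by rw [cl_sh]; exact h1) h2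
  rw [← h3]

attribute [local irreducible] Spc

variable (μ : Measure ℝ) [IsProbabilityMeasure μ]

theorem Spc_int {b : ℝ} (hb : 0 ≤ b) (lam : ℝ) (θ : Fin d → ℝ) (t : ℝ) :
    Integrable (Spc lam b θ t) (PZ d μ) := by
  refine Integrable.mono' (integrable_const 1) ?_ (Eventually.of_forall (Spc_le hb lam θ t))
  exact ((Spc_meas2 hb lam θ).comp (measurable_prodMk_left (x := t))).aestronglyMeasurable

theorem Spc_sh {b : ℝ} (hb : 0 ≤ b) (lam : ℝ) (θ : Fin d → ℝ) (t : ℝ) (y : Zd d) :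
    ∫ ω, Spc lam b θ t (sh y ω) ∂(PZ d μ) = ∫ ω, Spc lam b θ t ω ∂(PZ d μ) := by
  have h1 := integral_map (μ := PZ d μ) (φ := sh y) (f := Spc lam b θ t) (sh_meas y).aemeasurable
    (by rw [sh_map]; exact (Spc_int μ hb lam θ t).aestronglyMeasurable)
  rw [sh_map] at h1
  exact h1.symm

/-- the average profile for the canonical evolution -/
noncomputable def SBc (lam b : ℝ) (θ : Fin d → ℝ) (B : Finset (Zd d)) (t : ℝ) (ω : Zd d → ℝ) :
    ℂ := SB θ B (fun y => psi lam (cl b ω) y) t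

theorem SBc_eq {lam b : ℝ} (hb : 0 ≤ b) (θ : Fin d → ℝ) (B : Finset (Zd d)) (t : ℝ)
    (ω : Zd d → ℝ) : SBc lam b θ B t ω = (B.card : ℂ)⁻¹ * ∑ y ∈ B, Spc lam b θ t (sh y ω) := by
  unfold SBc SB
  congr 1
  exact Finset.sum_congr rfl fun y _ => Sp_shift hb θ y t ω

theorem SBc_meas2 {b : ℝ} (hb : 0 ≤ b) (lam : ℝ) (θ : Fin d → ℝ) (B : Finset (Zd d)) :
    Measurable fun p : ℝ × (Zd d → ℝ) => SBc lam b θ B p.1 p.2 := by
  have h1 : (fun p : ℝ × (Zd d → ℝ) => SBc lam b θ B p.1 p.2) =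
      fun p => (B.card : ℂ)⁻¹ * ∑ y ∈ B, Spc lam b θ p.1 (sh y p.2) := by
    funext p
    exact SBc_eq hb θ B p.1 p.2
  rw [h1]
  have h2 : ∀ y ∈ B, Measurable fun p : ℝ × (Zd d → ℝ) => Spc lam b θ p.1 (sh y p.2) := by
    intro y _
    have h3 : Measurable fun p : ℝ × (Zd d → ℝ) => (p.1, sh y p.2) :=
      measurable_fst.prodMk ((sh_meas y).comp measurable_snd)
    have h4 := (Spc_meas2 hb lam θ).comp h3
    exact h4
  have h5 := Finset.measurable_fun_sum B h2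
  exact measurable_const.mul h5

theorem SBc_mean {b : ℝ} (hb : 0 ≤ b) (lam : ℝ) (θ : Fin d → ℝ) (B : Finset (Zd d))
    (hB : B.Nonempty) (t : ℝ) :
    ∫ ω, SBc lam b θ B t ω ∂(PZ d μ) = ∫ ω, Spc lam b θ t ω ∂(PZ d μ) := by
  simp only [SBc_eq hb]
  have hi : ∀ y, Integrable (fun ω => Spc lam b θ t (sh y ω)) (PZ d μ) := by
    intro y
    refine Integrable.mono' (integrable_const 1) ?_
      (Eventually.of_forall fun ω => Spc_le hb lam θ t _)
    have h3 : Measurable fun ω : Zd d → ℝ => (t, sh y ω) := measurable_const.prodMk (sh_meas y)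
    have h4 := (Spc_meas2 hb lam θ).comp h3
    exact h4.aestronglyMeasurable
  rw [integral_const_mul, integral_finsetSum _ fun y _ => hi y,
    Finset.sum_congr rfl fun y _ => Spc_sh μ hb lam θ t y, Finset.sum_const, nsmul_eq_mul,
    inv_mul_cancel_left₀]
  exact_mod_cast hB.card_pos.ne'

/-- the mean profile as a series -/
theorem Spc_tsum {b : ℝ} (hb0 : 0 ≤ b) (hb : ∀ᵐ s ∂μ, |s| ≤ b) (lam : ℝ) (θ : Fin d → ℝ) (t : ℝ)
    (ψ : (Zd d → ℝ) → ℝ → Zd d → ℂ) (hψ : ∀ᵐ ω ∂(PZ d μ), Ev lam ω 0 (ψ ω)) :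
    (Summable fun x => ∫ ω, ‖ψ ω t x‖ ^ 2 ∂(PZ d μ)) ∧
    ∑' x : Zd d, ex θ x * ((∫ ω, ‖ψ ω t x‖ ^ 2 ∂(PZ d μ) : ℝ) : ℂ) =
      ∫ ω, Spc lam b θ t ω ∂(PZ d μ) := by
  have hae : ∀ x, (fun ω => ‖ψ ω t x‖ ^ 2) =ᵐ[PZ d μ] fun ω => ‖psi lam (cl b ω) 0 t x‖ ^ 2 := by
    intro x
    have h1 : ∀ᵐ ω ∂(PZ d μ), ∀ x : Zd d, |ω x| ≤ b := Pool.Agent.Zk11.QQ.ae_Z μ b hb
    filter_upwards [h1, hψ] with ω h2 h3
    rw [cl_eq h2, ev_unique h2 h3 (psi_ev h2 0)]
  have hI : ∀ x, ∫ ω, ‖ψ ω t x‖ ^ 2 ∂(PZ d μ) = ∫ ω, ‖psi lam (cl b ω) 0 t x‖ ^ 2 ∂(PZ d μ) :=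
    fun x => integral_congr_ae (hae x)
  simp only [hI]
  have hi : ∀ x, Integrable (fun ω : Zd d → ℝ => ‖psi lam (cl b ω) 0 t x‖ ^ 2) (PZ d μ) := by
    intro x
    refine Integrable.mono' (integrable_const 1)
      ((psi_meas hb0 lam 0 t x).norm.pow_const 2).aestronglyMeasurable
      (Eventually.of_forall fun ω => ?_)
    rw [Real.norm_eq_abs, abs_of_nonneg (by positivity)]
    exact pow_le_one₀ (norm_nonneg _) ((psi_ev (cl_bd hb0 ω) 0).le_one t x)
  have hs : Summable fun x => ∫ ω, ‖psi lam (cl b ω) 0 t x‖ ^ 2 ∂(PZ d μ) := by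
    refine summable_of_sum_le (c := 1) (fun x => integral_nonneg fun _ => by positivity)
      fun F => ?_
    rw [← integral_finsetSum _ fun x _ => hi x]
    have h1 : ∫ ω, ∑ x ∈ F, ‖psi lam (cl b ω) 0 t x‖ ^ 2 ∂(PZ d μ) ≤
        ∫ _ω, (1 : ℝ) ∂(PZ d μ) := by
      refine integral_mono (integrable_finsetSum _ fun x _ => hi x) (integrable_const _)
        fun ω => ?_
      exact sum_le_hasSum F (fun x _ => by positivity) ((psi_ev (cl_bd hb0 ω) 0).mass t)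
    simpa using h1
  refine ⟨hs, ?_⟩
  have h2 := (int_tsum (μ := PZ d μ) (fun (x : Zd d) (ω : Zd d → ℝ) =>
    ex θ x * ((‖psi lam (cl b ω) 0 t x‖ ^ 2 : ℝ) : ℂ)) (fun x => ((hi x).ofReal (𝕜 := ℂ)).const_mul _)
    (by
      refine hs.congr fun x => ?_
      refine integral_congr_ae (Eventually.of_forall fun ω => ?_)
      simp only
      rw [norm_mul, ex_norm, one_mul, Complex.norm_real, Real.norm_eq_abs,
        abs_of_nonneg (by positivity)])
    (fun ω => Sp_summable (psi_ev (cl_bd hb0 ω) 0) θ t)).2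
  have h4 : ∀ ω, Spc lam b θ t ω = ∑' x, ex θ x * ((‖psi lam (cl b ω) 0 t x‖ ^ 2 : ℝ) : ℂ) := by
    intro ω
    unfold Spc Sp
    rfl
  simp only [h4]
  rw [← h2.tsum_eq]
  refine tsum_congr fun x => ?_
  rw [integral_const_mul, integral_complex_ofReal]

end Pool.Agent.Zk93.TE
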