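import Pool.Agent.Zk93.TE.Evo

/-! The Green function as the Laplace transform of the evolution. -/

set_option autoImplicit false

open scoped BigOperators Topology
open MeasureTheory Filter

namespace Pool.Agent.Zk93.TE

open Pool.Agent.Zk11.QD (Zd HZ IsG Lap exp_norm exp_int exp_val lap_integrable)

variable {d : ℕ}

theorem Ev.cont {lam : ℝ} {ω : Zd d → ℝ} {y : Zd d} {ψ : ℝ → Zd d → ℂ} (h : Ev lam ω y ψ)
    (x : Zd d) : Continuous fun t => ψ t x :=
  continuous_iff_continuousAt.2 fun t => (h.eq t x).continuousAt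

theorem Ev.H_bd {lam b : ℝ} {ω : Zd d → ℝ} (hω : ∀ x, |ω x| ≤ b) {y : Zd d}
    {ψ : ℝ → Zd d → ℂ} (h : Ev lam ω y ψ) (t : ℝ) (x : Zd d) :
    ‖HZ lam ω (ψ t) x‖ ≤ Kb d lam b := by
  have := HZ_sup (lam := lam) hω (ψ t) 1 (h.le_one t) x
  rwa [mul_one] at this

theorem Ev.H_cont {lam : ℝ} {ω : Zd d → ℝ} {y : Zd d} {ψ : ℝ → Zd d → ℂ} (h : Ev lam ω y ψ)
    (x : Zd d) : Continuous fun t => HZ lam ω (ψ t) x := by
  unfold HZ
  refine ((continuous_finset_sum _ fun i _ => ?_).neg).add (continuous_const.mul (h.cont x))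
  exact ((h.cont _).sub (h.cont x)).add ((h.cont _).sub (h.cont x))

/-- the Laplace transform commutes with the operator -/
theorem lap_H {lam : ℝ} {ω : Zd d → ℝ} {y : Zd d} {ψ : ℝ → Zd d → ℂ} (h : Ev lam ω y ψ)
    (z : ℂ) (hz : 0 < z.im) (x : Zd d) :
    HZ lam ω (fun x => Lap (fun t => ψ t x) z) x = Lap (fun t => HZ lam ω (ψ t) x) z := by
  have hi : ∀ x, IntegrableOn (fun t : ℝ => Complex.exp (Complex.I * z * t) * ψ t x)
      (Set.Ioi 0) := fun x => lap_integrable _ (h.cont x) 1 (fun t => h.le_one t x) z hz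
  unfold HZ Lap
  have e1 : ∀ t : ℝ, Complex.exp (Complex.I * z * t) *
      (-∑ i : Fin d, ((ψ t (x + Pi.single i 1) - ψ t x) + (ψ t (x - Pi.single i 1) - ψ t x)) +
        ((lam * ω x : ℝ) : ℂ) * ψ t x) =
      -∑ i : Fin d, ((Complex.exp (Complex.I * z * t) * ψ t (x + Pi.single i 1) -
        Complex.exp (Complex.I * z * t) * ψ t x) +
        (Complex.exp (Complex.I * z * t) * ψ t (x - Pi.single i 1) -
          Complex.exp (Complex.I * z * t) * ψ t x)) +
        ((lam * ω x : ℝ) : ℂ) * (Complex.exp (Complex.I * z * t) * ψ t x) := by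
    intro t
    rw [mul_add, mul_neg, Finset.mul_sum]
    congr 1
    · congr 1
      exact Finset.sum_congr rfl fun i _ => by ring
    · ring
  simp only [e1]
  rw [integral_add, integral_neg, integral_finset_sum, integral_const_mul]
  · have e2 : ∀ i : Fin d, ∫ t in Set.Ioi (0 : ℝ),
        ((Complex.exp (Complex.I * z * t) * ψ t (x + Pi.single i 1) -
        Complex.exp (Complex.I * z * t) * ψ t x) +
        (Complex.exp (Complex.I * z * t) * ψ t (x - Pi.single i 1) -
          Complex.exp (Complex.I * z * t) * ψ t x)) =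
        (∫ t in Set.Ioi (0 : ℝ), Complex.exp (Complex.I * z * t) * ψ t (x + Pi.single i 1)) -
        (∫ t in Set.Ioi (0 : ℝ), Complex.exp (Complex.I * z * t) * ψ t x) +
        ((∫ t in Set.Ioi (0 : ℝ), Complex.exp (Complex.I * z * t) * ψ t (x - Pi.single i 1)) -
        (∫ t in Set.Ioi (0 : ℝ), Complex.exp (Complex.I * z * t) * ψ t x)) := by
      intro i
      rw [integral_add, integral_sub, integral_sub]
      · exact hi _
      · exact hi _
      · exact hi _
      · exact hi _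
      · exact (hi _).sub (hi _)
      · exact (hi _).sub (hi _)
    rw [Finset.sum_congr rfl fun i _ => e2 i, mul_add, mul_neg, Finset.mul_sum]
    congr 1
    · congr 1
      exact Finset.sum_congr rfl fun i _ => by ring
    · ring
  · intro i _
    exact ((hi _).sub (hi _)).add ((hi _).sub (hi _))
  · exact (integrable_finset_sum _ fun i _ => ((hi _).sub (hi _)).add ((hi _).sub (hi _))).neg
  · exact (hi _).const_mul _

theorem lap_eq {lam b : ℝ} {ω : Zd d → ℝ} (hω : ∀ x, |ω x| ≤ b) {y : Zd d}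
    {ψ : ℝ → Zd d → ℂ} (h : Ev lam ω y ψ) (z : ℂ) (hz : 0 < z.im) (x : Zd d) :
    Lap (fun t => HZ lam ω (ψ t) x) z = z * Lap (fun t => ψ t x) z + ψ 0 x := by
  have hi := lap_integrable (fun t => ψ t x) (h.cont x) 1 (fun t => h.le_one t x) z hz
  have hiH := lap_integrable (fun t => HZ lam ω (ψ t) x) (h.H_cont x) (Kb d lam b)
    (fun t => h.H_bd hω t x) z hz
  -- the derivative of `e^{izt} ψ_t`
  have hd : ∀ t : ℝ, HasDerivAt (fun t : ℝ => Complex.exp (Complex.I * z * t) * ψ t x)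
      (Complex.I * z * (Complex.exp (Complex.I * z * t) * ψ t x) -
        Complex.I * (Complex.exp (Complex.I * z * t) * HZ lam ω (ψ t) x)) t := by
    intro t
    have h1 : HasDerivAt (fun t : ℝ => Complex.I * z * (t : ℂ)) (Complex.I * z) t := by
      have := (Complex.ofRealCLM.hasDerivAt (x := t)).const_mul (Complex.I * z)
      simpa using this
    refine ((h1.cexp).mul (h.eq t x)).congr_deriv ?_
    ring
  have hlim : Tendsto (fun t : ℝ => Complex.exp (Complex.I * z * t) * ψ t x) atTop (𝓝 0) := by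
    rw [tendsto_zero_iff_norm_tendsto_zero]
    have h2 : Tendsto (fun t : ℝ => Real.exp (-(z.im * t))) atTop (𝓝 0) := by
      refine Real.tendsto_exp_neg_atTop_nhds_zero.comp ?_
      exact tendsto_id.const_mul_atTop hz
    refine squeeze_zero (fun _ => norm_nonneg _) (fun t => ?_) h2
    rw [norm_mul, exp_norm]
    exact mul_le_of_le_one_right (Real.exp_pos _).le (h.le_one t x)
  have hint := integral_Ioi_of_hasDerivAt_of_tendsto' (a := 0)
    (f := fun t : ℝ => Complex.exp (Complex.I * z * t) * ψ t x)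
    (fun t _ => hd t) ((hi.const_mul _).sub (hiH.const_mul _)) hlim
  rw [integral_sub (hi.const_mul _) (hiH.const_mul _), integral_const_mul, integral_const_mul]
    at hint
  unfold Lap
  have e0 : Complex.exp (Complex.I * z * ((0 : ℝ) : ℂ)) * ψ 0 x = ψ 0 x := by simp
  rw [e0] at hint
  have e1 : z * (Complex.I * ∫ t in Set.Ioi (0 : ℝ), Complex.exp (Complex.I * z * t) * ψ t x) =
      Complex.I * z * ∫ t in Set.Ioi (0 : ℝ), Complex.exp (Complex.I * z * t) * ψ t x := by ring
  rw [e1]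
  linear_combination -hint

/-- the mass of the Laplace transform -/
theorem lap_sq {F : ℝ → ℂ} (hF : Continuous F) (hB : ∀ t, ‖F t‖ ≤ 1) (z : ℂ) (hz : 0 < z.im) :
    ‖Lap F z‖ ^ 2 ≤ 1 / z.im * ∫ t in Set.Ioi (0 : ℝ), Real.exp (-(z.im * t)) * ‖F t‖ ^ 2 := by
  have hi1 := exp_int z.im hz
  have hg : ∀ p : ℕ, IntegrableOn (fun t => Real.exp (-(z.im * t)) * ‖F t‖ ^ p) (Set.Ioi 0) := by
    intro p
    refine Integrable.mono' hi1 ?_ (Eventually.of_forall fun t => ?_)
    · exact (Continuous.mul (by fun_prop) (hF.norm.pow p)).aestronglyMeasurable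
    · rw [Real.norm_eq_abs, abs_of_nonneg (by positivity)]
      exact mul_le_of_le_one_right (Real.exp_pos _).le (pow_le_one₀ (norm_nonneg _) (hB t))
  have h1 : ‖Lap F z‖ ≤ ∫ t in Set.Ioi (0 : ℝ), Real.exp (-(z.im * t)) * ‖F t‖ := by
    unfold Lap
    rw [norm_mul, Complex.norm_I, one_mul]
    refine (norm_integral_le_integral_norm _).trans (le_of_eq ?_)
    refine integral_congr_ae (Eventually.of_forall fun t => ?_)
    simp only
    rw [norm_mul, exp_norm]
  set A := ∫ t in Set.Ioi (0 : ℝ), Real.exp (-(z.im * t)) * ‖F t‖ with hA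
  set S := ∫ t in Set.Ioi (0 : ℝ), Real.exp (-(z.im * t)) * ‖F t‖ ^ 2 with hS
  have hA0 : 0 ≤ A := integral_nonneg fun t => by positivity
  -- `0 ≤ ∫ e (|F| - c)^2`
  have key : ∀ c : ℝ, 0 ≤ S - 2 * c * A + c ^ 2 * (1 / z.im) := by
    intro c
    have h2 : 0 ≤ ∫ t in Set.Ioi (0 : ℝ), Real.exp (-(z.im * t)) * (‖F t‖ - c) ^ 2 :=
      integral_nonneg fun t => by positivity
    have h3 : ∀ t, Real.exp (-(z.im * t)) * (‖F t‖ - c) ^ 2 =
        Real.exp (-(z.im * t)) * ‖F t‖ ^ 2 - 2 * c * (Real.exp (-(z.im * t)) * ‖F t‖) +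
          c ^ 2 * Real.exp (-(z.im * t)) := fun t => by ring
    have hg1 : IntegrableOn (fun t => Real.exp (-(z.im * t)) * ‖F t‖) (Set.Ioi 0) := by
      simpa using hg 1
    simp only [h3] at h2
    have hg12 : IntegrableOn (fun t => Real.exp (-(z.im * t)) * ‖F t‖ ^ 2 -
        2 * c * (Real.exp (-(z.im * t)) * ‖F t‖)) (Set.Ioi 0) := (hg 2).sub (hg1.const_mul _)
    rw [integral_add hg12 (hi1.const_mul _),
      integral_sub (hg 2) (hg1.const_mul _), integral_const_mul, integral_const_mul,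
      exp_val z.im hz] at h2
    exact h2
  have h4 := key (A * z.im)
  have h5 : A ^ 2 * z.im ≤ S := by
    have : S - 2 * (A * z.im) * A + (A * z.im) ^ 2 * (1 / z.im) = S - A ^ 2 * z.im := by
      field_simp
      ring
    linarith
  calc ‖Lap F z‖ ^ 2 ≤ A ^ 2 := pow_le_pow_left₀ (norm_nonneg _) h1 2
    _ = 1 / z.im * (A ^ 2 * z.im) := by field_simp
    _ ≤ _ := by gcongr

theorem green {lam b : ℝ} {ω : Zd d → ℝ} (hω : ∀ x, |ω x| ≤ b)
    {ψ : ℝ → Zd d → ℂ} (h : Ev lam ω 0 ψ) (z : ℂ) (hz : 0 < z.im) :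
    IsG lam ω z (fun x => Lap (fun t => ψ t x) z) := by
  refine ⟨?_, fun x => ?_⟩
  · -- square summable
    refine summable_of_sum_le (c := 1 / z.im * (1 / z.im)) (fun x => by positivity) fun s => ?_
    have h1 : ∀ x ∈ s, ‖Lap (fun t => ψ t x) z‖ ^ 2 ≤ 1 / z.im *
        ∫ t in Set.Ioi (0 : ℝ), Real.exp (-(z.im * t)) * ‖ψ t x‖ ^ 2 := fun x _ =>
      lap_sq (h.cont x) (fun t => h.le_one t x) z hz
    have hg : ∀ x, IntegrableOn (fun t => Real.exp (-(z.im * t)) * ‖ψ t x‖ ^ 2) (Set.Ioi 0) := by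
      intro x
      refine Integrable.mono' (exp_int z.im hz) ?_ (Eventually.of_forall fun t => ?_)
      · exact (Continuous.mul (by fun_prop) ((h.cont x).norm.pow 2)).aestronglyMeasurable
      · rw [Real.norm_eq_abs, abs_of_nonneg (by positivity)]
        exact mul_le_of_le_one_right (Real.exp_pos _).le
          (pow_le_one₀ (norm_nonneg _) (h.le_one t x))
    refine (Finset.sum_le_sum h1).trans ?_
    rw [← Finset.mul_sum, ← integral_finset_sum _ fun x _ => hg x]
    have h2 : ∫ t in Set.Ioi (0 : ℝ), ∑ x ∈ s, Real.exp (-(z.im * t)) * ‖ψ t x‖ ^ 2 ≤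
        ∫ t in Set.Ioi (0 : ℝ), Real.exp (-(z.im * t)) := by
      refine integral_mono (integrable_finset_sum _ fun x _ => hg x) (exp_int z.im hz)
        fun t => ?_
      simp only
      rw [← Finset.mul_sum]
      refine mul_le_of_le_one_right (Real.exp_pos _).le ?_
      exact sum_le_hasSum s (fun x _ => by positivity) (h.mass t)
    rw [exp_val z.im hz] at h2
    gcongr
  · rw [lap_H h z hz x, lap_eq hω h z hz x, h.init]
    ring

end Pool.Agent.Zk93.TE
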