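import Pool.Agent.Helper76.HPlanch
import Pool.Agent.Zk93.TE.Res

/-! Plancherel's theorem for the Laplace transform of the evolution; sums over the sites. -/

set_option autoImplicit false

open scoped BigOperators Topology FourierTransform ENNReal
open MeasureTheory Filter

namespace Pool.Agent.Zk93.TE

open Pool.Agent.Zk11.QD (Zd HZ IsG Lap exp_norm exp_int exp_val lap_integrable)

variable {d : ℕ}

/-- the cut off function -/
noncomputable def hh (F : ℝ → ℂ) (η : ℝ) : ℝ → ℂ :=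
  (Set.Ioi (0 : ℝ)).indicator fun t => ((Real.exp (-(η * t)) : ℝ) : ℂ) * F t

theorem hh_int {F : ℝ → ℂ} (hF : Continuous F) (hB : ∀ t, ‖F t‖ ≤ 1) (η : ℝ) (hη : 0 < η) :
    Integrable (hh F η) := by
  unfold hh
  rw [integrable_indicator_iff measurableSet_Ioi]
  refine Integrable.mono' (exp_int η hη) ?_ (Eventually.of_forall fun t => ?_)
  · exact (Continuous.mul (by fun_prop) hF).aestronglyMeasurable
  · rw [norm_mul, Complex.norm_real, Real.norm_eq_abs, abs_of_pos (Real.exp_pos _)]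
    exact mul_le_of_le_one_right (Real.exp_pos _).le (hB t)

theorem hh_le {F : ℝ → ℂ} (hB : ∀ t, ‖F t‖ ≤ 1) (η : ℝ) (hη : 0 < η) (t : ℝ) :
    ‖hh F η t‖ ≤ 1 := by
  unfold hh
  by_cases ht : t ∈ Set.Ioi (0 : ℝ)
  · rw [Set.indicator_of_mem ht, norm_mul, Complex.norm_real, Real.norm_eq_abs,
      abs_of_pos (Real.exp_pos _)]
    have ht0 : 0 < t := ht
    have h1 : Real.exp (-(η * t)) ≤ 1 := Real.exp_le_one_iff.2 (by nlinarith)
    calc _ ≤ 1 * (1 : ℝ) := mul_le_mul h1 (hB t) (norm_nonneg _) zero_le_one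
      _ = 1 := one_mul 1
  · rw [Set.indicator_of_notMem ht, norm_zero]
    exact zero_le_one

theorem hh_memLp {F : ℝ → ℂ} (hF : Continuous F) (hB : ∀ t, ‖F t‖ ≤ 1) (η : ℝ) (hη : 0 < η) :
    MemLp (hh F η) 2 := by
  rw [memLp_two_iff_integrable_sq_norm (hh_int hF hB η hη).aestronglyMeasurable]
  refine Integrable.mono' (hh_int hF hB η hη).norm
    ((hh_int hF hB η hη).aestronglyMeasurable.norm.pow 2) (Eventually.of_forall fun t => ?_)
  rw [Real.norm_eq_abs, abs_of_nonneg (by positivity), sq]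
  exact mul_le_of_le_one_left (norm_nonneg _) (hh_le hB η hη t)

theorem hh_fourier (F : ℝ → ℂ) (η : ℝ) (E : ℝ) :
    Lap F ((E : ℂ) + η * Complex.I) = Complex.I * 𝓕 (hh F η) (E * (-(2 * Real.pi)⁻¹)) := by
  rw [Real.fourier_real_eq_integral_exp_smul]
  unfold Lap hh
  congr 1
  rw [← integral_indicator measurableSet_Ioi]
  refine integral_congr_ae (Eventually.of_forall fun t => ?_)
  simp only
  by_cases ht : t ∈ Set.Ioi (0 : ℝ)
  · rw [Set.indicator_of_mem ht, Set.indicator_of_mem ht, smul_eq_mul, ← mul_assoc]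
    congr 1
    rw [Complex.ofReal_exp, ← Complex.exp_add]
    congr 1
    have hpi : (Real.pi : ℂ) ≠ 0 := by exact_mod_cast Real.pi_ne_zero
    push_cast
    field_simp
    linear_combination (η : ℂ) * t * Complex.I_sq
  · rw [Set.indicator_of_notMem ht, Set.indicator_of_notMem ht, smul_zero]

theorem hh_planch {F : ℝ → ℂ} (hF : Continuous F) (hB : ∀ t, ‖F t‖ ≤ 1) (η : ℝ) (hη : 0 < η) :
    Integrable (fun ξ => ‖𝓕 (hh F η) ξ‖ ^ 2) ∧
      ∫ ξ, ‖𝓕 (hh F η) ξ‖ ^ 2 = ∫ t in Set.Ioi (0 : ℝ), Real.exp (-(2 * η * t)) * ‖F t‖ ^ 2 := by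
  have h1 := hh_int hF hB η hη
  have h2 := hh_memLp hF hB η hη
  have hcont : Continuous (𝓕 (hh F η)) :=
    VectorFourier.fourierIntegral_continuous Real.continuous_fourierChar
      (innerSL ℝ).continuous₂ h1
  have hpl := Pool.Agent.Helper76.NormalHP.plancherel_lintegral (hh F η) h1 h2
  have e1 : ∀ g : ℝ → ℂ, ∫⁻ ξ, ‖g ξ‖ₑ ^ 2 = ∫⁻ ξ, ENNReal.ofReal (‖g ξ‖ ^ 2) := by
    intro g
    refine lintegral_congr fun ξ => ?_
    rw [ENNReal.ofReal_pow (norm_nonneg _), ofReal_norm]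
  have hI2 : Integrable fun t => ‖hh F η t‖ ^ 2 :=
    (memLp_two_iff_integrable_sq_norm h1.aestronglyMeasurable).1 h2
  have hfin : ∫⁻ t, ‖hh F η t‖ₑ ^ 2 = ENNReal.ofReal (∫ t, ‖hh F η t‖ ^ 2) := by
    rw [e1, ofReal_integral_eq_lintegral_ofReal hI2 (Eventually.of_forall fun t => by positivity)]
  have hm : AEStronglyMeasurable (fun ξ => ‖𝓕 (hh F η) ξ‖ ^ 2) volume :=
    (hcont.norm.pow 2).aestronglyMeasurable
  have hint : Integrable (fun ξ => ‖𝓕 (hh F η) ξ‖ ^ 2) := by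
    refine ⟨hm, ?_⟩
    rw [hasFiniteIntegral_iff_ofReal (Eventually.of_forall fun ξ => by positivity), ← e1, hpl, hfin]
    exact ENNReal.ofReal_lt_top
  refine ⟨hint, ?_⟩
  have h3 : ENNReal.ofReal (∫ ξ, ‖𝓕 (hh F η) ξ‖ ^ 2) = ENNReal.ofReal (∫ t, ‖hh F η t‖ ^ 2) := by
    rw [ofReal_integral_eq_lintegral_ofReal hint (Eventually.of_forall fun t => by positivity),
      ← e1, hpl, hfin]
  rw [ENNReal.ofReal_eq_ofReal_iff (integral_nonneg fun _ => by positivity)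
    (integral_nonneg fun _ => by positivity)] at h3
  rw [h3, ← integral_indicator measurableSet_Ioi]
  refine integral_congr_ae (Eventually.of_forall fun t => ?_)
  unfold hh
  simp only
  by_cases ht : t ∈ Set.Ioi (0 : ℝ)
  · rw [Set.indicator_of_mem ht, Set.indicator_of_mem ht, norm_mul, mul_pow, Complex.norm_real,
      Real.norm_eq_abs, abs_of_pos (Real.exp_pos _), ← Real.exp_nat_mul]
    congr 2
    push_cast
    ring
  · rw [Set.indicator_of_notMem ht, Set.indicator_of_notMem ht, norm_zero]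
    norm_num

theorem lap_planch {F : ℝ → ℂ} (hF : Continuous F) (hB : ∀ t, ‖F t‖ ≤ 1) (η : ℝ) (hη : 0 < η) :
    Integrable (fun E : ℝ => ‖Lap F ((E : ℂ) + η * Complex.I)‖ ^ 2) ∧
      ∫ E : ℝ, ‖Lap F ((E : ℂ) + η * Complex.I)‖ ^ 2 =
        2 * Real.pi * ∫ t in Set.Ioi (0 : ℝ), Real.exp (-(2 * η * t)) * ‖F t‖ ^ 2 := by
  obtain ⟨h1, h2⟩ := hh_planch hF hB η hη
  have hpi := Real.pi_pos
  have hR : (-(2 * Real.pi)⁻¹ : ℝ) ≠ 0 := by
    have : 0 < (2 * Real.pi)⁻¹ := by positivity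
    linarith
  have e : ∀ E : ℝ, ‖Lap F ((E : ℂ) + η * Complex.I)‖ ^ 2 =
      ‖𝓕 (hh F η) (E * (-(2 * Real.pi)⁻¹))‖ ^ 2 := by
    intro E
    rw [hh_fourier, norm_mul, Complex.norm_I, one_mul]
  simp only [e]
  refine ⟨(integrable_comp_mul_right_iff (fun ξ => ‖𝓕 (hh F η) ξ‖ ^ 2) hR).2 h1, ?_⟩
  rw [Measure.integral_comp_mul_right (fun ξ => ‖𝓕 (hh F η) ξ‖ ^ 2), h2, smul_eq_mul]
  congr 1
  rw [abs_inv, abs_neg, abs_inv, inv_inv, abs_of_pos (by positivity)]

/-- integration of series of functions -/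
theorem int_tsum {ι α : Type*} [Countable ι] [MeasurableSpace α] {μ : Measure α}
    (F : ι → α → ℂ) (hF : ∀ i, Integrable (F i) μ) (hs : Summable fun i => ∫ a, ‖F i a‖ ∂μ)
    (hp : ∀ a, Summable fun i => ‖F i a‖) :
    Integrable (fun a => ∑' i, F i a) μ ∧
      HasSum (fun i => ∫ a, F i a ∂μ) (∫ a, ∑' i, F i a ∂μ) := by
  refine ⟨⟨?_, ?_⟩, hasSum_integral_of_summable_integral_norm hF hs⟩
  · refine aestronglyMeasurable_of_tendsto_ae (u := (atTop : Filter (Finset ι)))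
      (f := fun s a => ∑ i ∈ s, F i a) ?_ ?_
    · intro s
      exact (integrable_finset_sum s fun i _ => hF i).aestronglyMeasurable
    · exact Eventually.of_forall fun a => (hp a).of_norm.hasSum
  · have h1 : ∫⁻ a, ‖∑' i, F i a‖ₑ ∂μ ≤ ∫⁻ a, ∑' i, ‖F i a‖ₑ ∂μ := by
      refine lintegral_mono fun a => ?_
      exact enorm_tsum_le_tsum_enorm
    refine lt_of_le_of_lt h1 ?_
    rw [lintegral_tsum fun i => (hF i).aestronglyMeasurable.enorm]
    have h2 : ∀ i, ∫⁻ a, ‖F i a‖ₑ ∂μ = ENNReal.ofReal (∫ a, ‖F i a‖ ∂μ) := fun i =>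
      (ofReal_integral_norm_eq_lintegral_enorm (hF i)).symm
    simp only [h2]
    rw [← ENNReal.ofReal_tsum_of_nonneg (fun i => integral_nonneg fun _ => norm_nonneg _) hs]
    exact ENNReal.ofReal_lt_top

end Pool.Agent.Zk93.TE
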