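import Pool.Agent.Zk11.QQ.Zl
import Pool.Agent.Zk93.TE.Pla

/-! The spectral representation of the time averages. -/

set_option autoImplicit false

open scoped BigOperators Topology FourierTransform ENNReal
open MeasureTheory Filter

namespace Pool.Agent.Zk93.TE

open Pool.Agent.Zk11.QD (Zd HZ IsG Lap exp_norm exp_int exp_val lap_integrable isG_unique)
open Pool.Agent.Zk11.QQ (Gc Gc_isG sh ex ex_norm Ph FZ)

variable {d : ℕ}

theorem time_int {lam : ℝ} {ω : Zd d → ℝ} {y : Zd d} {ψ : ℝ → Zd d → ℂ} (h : Ev lam ω y ψ)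
    (s : ℝ) (hs : 0 < s) (x : Zd d) :
    IntegrableOn (fun t => Real.exp (-(s * t)) * ‖ψ t x‖ ^ 2) (Set.Ioi 0) := by
  refine Integrable.mono' (exp_int s hs) ?_ (Eventually.of_forall fun t => ?_)
  · exact (Continuous.mul (by fun_prop) ((h.cont x).norm.pow 2)).aestronglyMeasurable
  · rw [Real.norm_eq_abs, abs_of_nonneg (by positivity)]
    exact mul_le_of_le_one_right (Real.exp_pos _).le
      (pow_le_one₀ (norm_nonneg _) (h.le_one t x))

theorem time_sum {lam : ℝ} {ω : Zd d → ℝ} {y : Zd d} {ψ : ℝ → Zd d → ℂ} (h : Ev lam ω y ψ)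
    (s : ℝ) (hs : 0 < s) :
    Summable fun x => ∫ t in Set.Ioi (0 : ℝ), Real.exp (-(s * t)) * ‖ψ t x‖ ^ 2 := by
  refine summable_of_sum_le (c := 1 / s) (fun x => integral_nonneg fun t => by positivity)
    fun F => ?_
  rw [← integral_finset_sum _ fun x _ => time_int h s hs x, ← exp_val s hs]
  refine integral_mono (integrable_finset_sum _ fun x _ => time_int h s hs x) (exp_int s hs)
    fun t => ?_
  simp only
  rw [← Finset.mul_sum]
  refine mul_le_of_le_one_right (Real.exp_pos _).le ?_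
  exact sum_le_hasSum F (fun x _ => by positivity) (h.mass t)

/-- the profile at time `t` -/
noncomputable def Sp (θ : Fin d → ℝ) (ψ : ℝ → Zd d → ℂ) (t : ℝ) : ℂ :=
  ∑' x, ex θ x * ((‖ψ t x‖ ^ 2 : ℝ) : ℂ)

theorem ex_zero (x : Zd d) : ex (0 : Fin d → ℝ) x = 1 := by
  unfold ex
  simp

theorem Sp_summable {lam : ℝ} {ω : Zd d → ℝ} {y : Zd d} {ψ : ℝ → Zd d → ℂ} (h : Ev lam ω y ψ)
    (θ : Fin d → ℝ) (t : ℝ) : Summable fun x => ‖ex θ x * ((‖ψ t x‖ ^ 2 : ℝ) : ℂ)‖ := by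
  refine (h.mass t).summable.congr fun x => ?_
  rw [norm_mul, ex_norm, one_mul, Complex.norm_real, Real.norm_eq_abs,
    abs_of_nonneg (by positivity)]

theorem Sp_le {lam : ℝ} {ω : Zd d → ℝ} {y : Zd d} {ψ : ℝ → Zd d → ℂ} (h : Ev lam ω y ψ)
    (θ : Fin d → ℝ) (t : ℝ) : ‖Sp θ ψ t‖ ≤ 1 := by
  unfold Sp
  refine (norm_tsum_le_tsum_norm (Sp_summable h θ t)).trans (le_of_eq ?_)
  rw [← (h.mass t).tsum_eq]
  refine tsum_congr fun x => ?_
  rw [norm_mul, ex_norm, one_mul, Complex.norm_real, Real.norm_eq_abs,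
    abs_of_nonneg (by positivity)]

theorem Sp_zero {lam : ℝ} {ω : Zd d → ℝ} {y : Zd d} {ψ : ℝ → Zd d → ℂ} (h : Ev lam ω y ψ)
    (t : ℝ) : Sp 0 ψ t = 1 := by
  unfold Sp
  simp only [ex_zero, one_mul]
  rw [← Complex.ofReal_tsum, (h.mass t).tsum_eq, Complex.ofReal_one]

theorem Ph_eq {lam b : ℝ} {ω : Zd d → ℝ} (hω : ∀ x, |ω x| ≤ b)
    {ψ : ℝ → Zd d → ℂ} (h : Ev lam ω 0 ψ) (θ : Fin d → ℝ) (η : ℝ) (hη : 0 < η) (E : ℝ) :
    Ph lam ((E : ℂ) + η * Complex.I) θ ω = (η : ℂ) *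
      ∑' x, ex θ x * ((‖Lap (fun t => ψ t x) ((E : ℂ) + η * Complex.I)‖ ^ 2 : ℝ) : ℂ) := by
  have hz : 0 < ((E : ℂ) + η * Complex.I).im := by simpa using hη
  have h1 := isG_unique lam ω _ hz _ _ (Gc_isG lam _ hz ω) (green hω h _ hz)
  unfold Ph
  rw [h1]
  congr 1
  simp

theorem Ph_int {lam b : ℝ} {ω : Zd d → ℝ} (hω : ∀ x, |ω x| ≤ b)
    {ψ : ℝ → Zd d → ℂ} (h : Ev lam ω 0 ψ) (θ : Fin d → ℝ) (η : ℝ) (hη : 0 < η) :
    Integrable (fun E : ℝ => Ph lam ((E : ℂ) + η * Complex.I) θ ω) ∧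
      IntegrableOn (fun t : ℝ => ((2 * η * Real.exp (-(2 * η * t)) : ℝ) : ℂ) * Sp θ ψ t)
        (Set.Ioi 0) ∧
      ∫ E : ℝ, Ph lam ((E : ℂ) + η * Complex.I) θ ω =
        Real.pi * ∫ t in Set.Ioi (0 : ℝ), ((2 * η * Real.exp (-(2 * η * t)) : ℝ) : ℂ) *
          Sp θ ψ t := by
  have hη2 : 0 < 2 * η := by linarith
  have hpl := fun x => lap_planch (h.cont x) (fun t => h.le_one t x) η hη
  -- the energy side
  set F : Zd d → ℝ → ℂ := fun x E => ex θ x *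
    ((‖Lap (fun t => ψ t x) ((E : ℂ) + η * Complex.I)‖ ^ 2 : ℝ) : ℂ) with hF
  have hFn : ∀ x E, ‖F x E‖ = ‖Lap (fun t => ψ t x) ((E : ℂ) + η * Complex.I)‖ ^ 2 := by
    intro x E
    rw [hF]
    simp only
    rw [norm_mul, ex_norm, one_mul, Complex.norm_real, Real.norm_eq_abs,
      abs_of_nonneg (by positivity)]
  have hFi : ∀ x, Integrable (F x) := fun x => ((hpl x).1.ofReal (𝕜 := ℂ)).const_mul _
  have hFs : Summable fun x => ∫ E, ‖F x E‖ := by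
    simp only [hFn]
    simp only [fun x => (hpl x).2]
    exact (time_sum h (2 * η) hη2).mul_left _
  have hFp : ∀ E, Summable fun x => ‖F x E‖ := by
    intro E
    simp only [hFn]
    exact (green hω h _ (by simpa using hη)).sq
  obtain ⟨a1, a2⟩ := int_tsum F hFi hFs hFp
  -- the time side
  set G : Zd d → ℝ → ℂ := fun x t => ex θ x *
    ((Real.exp (-(2 * η * t)) * ‖ψ t x‖ ^ 2 : ℝ) : ℂ) with hG
  have hGn : ∀ x t, ‖G x t‖ = Real.exp (-(2 * η * t)) * ‖ψ t x‖ ^ 2 := by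
    intro x t
    rw [hG]
    simp only
    rw [norm_mul, ex_norm, one_mul, Complex.norm_real, Real.norm_eq_abs,
      abs_of_nonneg (by positivity)]
  have hGi : ∀ x, Integrable (G x) (volume.restrict (Set.Ioi 0)) := fun x =>
    ((time_int h (2 * η) hη2 x).ofReal (𝕜 := ℂ)).const_mul _
  have hGs : Summable fun x => ∫ t in Set.Ioi (0 : ℝ), ‖G x t‖ := by
    simp only [hGn]
    exact time_sum h (2 * η) hη2
  have hGp : ∀ t, Summable fun x => ‖G x t‖ := by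
    intro t
    simp only [hGn]
    exact (h.mass t).summable.mul_left _
  obtain ⟨b1, b2⟩ := int_tsum G hGi hGs hGp
  have hFG : ∀ x, ∫ E, F x E = 2 * Real.pi * ∫ t in Set.Ioi (0 : ℝ), G x t := by
    intro x
    rw [hF, hG]
    simp only
    rw [integral_const_mul, integral_const_mul, integral_complex_ofReal, integral_complex_ofReal, (hpl x).2]
    push_cast
    ring
  have hkey : ∫ E, ∑' x, F x E = 2 * Real.pi * ∫ t in Set.Ioi (0 : ℝ), ∑' x, G x t := by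
    refine a2.unique ?_
    simp only [hFG]
    exact b2.mul_left _
  have hGS : ∀ t, ∑' x, G x t = ((Real.exp (-(2 * η * t)) : ℝ) : ℂ) * Sp θ ψ t := by
    intro t
    rw [hG]
    unfold Sp
    simp only
    rw [← tsum_mul_left]
    refine tsum_congr fun x => ?_
    push_cast
    ring
  have e1 : (fun E : ℝ => Ph lam ((E : ℂ) + η * Complex.I) θ ω) =
      fun E => (η : ℂ) * ∑' x, F x E := by
    funext E
    exact Ph_eq hω h θ η hη E
  have e2 : (fun t : ℝ => ((2 * η * Real.exp (-(2 * η * t)) : ℝ) : ℂ) * Sp θ ψ t) =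
      fun t => (2 * η : ℂ) * ∑' x, G x t := by
    funext t
    rw [hGS]
    push_cast
    ring
  rw [e1, e2]
  refine ⟨a1.const_mul _, b1.const_mul _, ?_⟩
  rw [integral_const_mul, integral_const_mul, hkey]
  ring

theorem Ph_norm {lam b : ℝ} {ω : Zd d → ℝ} (hω : ∀ x, |ω x| ≤ b)
    {ψ : ℝ → Zd d → ℂ} (h : Ev lam ω 0 ψ) (θ : Fin d → ℝ) (η : ℝ) (hη : 0 < η) (E : ℝ) :
    ‖Ph lam ((E : ℂ) + η * Complex.I) θ ω‖ ≤ (Ph lam ((E : ℂ) + η * Complex.I) 0 ω).re := by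
  rw [Ph_eq hω h θ η hη E, Ph_eq hω h 0 η hη E]
  set G := fun x => Lap (fun t => ψ t x) ((E : ℂ) + η * Complex.I) with hG
  have hsq : Summable fun x => ‖G x‖ ^ 2 := (green hω h _ (by simpa using hη)).sq
  have e1 : ∀ (θ : Fin d → ℝ) x, ‖ex θ x * ((‖G x‖ ^ 2 : ℝ) : ℂ)‖ = ‖G x‖ ^ 2 := by
    intro θ x
    rw [norm_mul, ex_norm, one_mul, Complex.norm_real, Real.norm_eq_abs,
      abs_of_nonneg (by positivity)]
  have hs : Summable fun x => ‖ex θ x * ((‖G x‖ ^ 2 : ℝ) : ℂ)‖ := by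
    simp only [e1]
    exact hsq
  rw [norm_mul, Complex.norm_real, Real.norm_eq_abs, abs_of_pos hη, Complex.re_ofReal_mul]
  refine mul_le_mul_of_nonneg_left ?_ hη.le
  have e2 : (∑' x, ex (0 : Fin d → ℝ) x * ((‖G x‖ ^ 2 : ℝ) : ℂ)).re = ∑' x, ‖G x‖ ^ 2 := by
    simp only [ex_zero, one_mul]
    rw [← Complex.ofReal_tsum, Complex.ofReal_re]
  show ‖∑' x, ex θ x * ((‖G x‖ ^ 2 : ℝ) : ℂ)‖ ≤
    (∑' x, ex (0 : Fin d → ℝ) x * ((‖G x‖ ^ 2 : ℝ) : ℂ)).re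
  rw [e2]
  refine (norm_tsum_le_tsum_norm hs).trans (le_of_eq ?_)
  exact tsum_congr fun x => e1 θ x

/-- the shifted evolution -/
theorem Ev.shift {lam : ℝ} {ω : Zd d → ℝ} {y : Zd d} {ψ : ℝ → Zd d → ℂ} (h : Ev lam ω y ψ) :
    Ev lam (sh y ω) 0 (fun t x => ψ t (x + y)) := by
  refine ⟨fun x => ?_, fun t => ?_, fun t x => ?_⟩
  · rw [h.init]
    simp
  · exact (Equiv.addRight y).hasSum_iff.2 (h.mass t)
  · refine (h.eq t (x + y)).congr_deriv ?_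
    congr 1
    unfold HZ sh
    congr 1
    congr 1
    refine Finset.sum_congr rfl fun i _ => ?_
    beta_reduce
    rw [add_right_comm x (Pi.single i 1) y, show x - Pi.single i 1 + y = x + y - Pi.single i 1 by
      abel]

/-- the average profile at time `t` -/
noncomputable def SB (θ : Fin d → ℝ) (B : Finset (Zd d)) (ψ : Zd d → ℝ → Zd d → ℂ) (t : ℝ) : ℂ :=
  (B.card : ℂ)⁻¹ * ∑ y ∈ B, Sp θ (fun t x => ψ y t (x + y)) t

theorem SB_le {lam : ℝ} {ω : Zd d → ℝ} {ψ : Zd d → ℝ → Zd d → ℂ} (h : ∀ y, Ev lam ω y (ψ y))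
    (θ : Fin d → ℝ) (B : Finset (Zd d)) (t : ℝ) : ‖SB θ B ψ t‖ ≤ 1 := by
  unfold SB
  rw [norm_mul, norm_inv, Complex.norm_natCast]
  have h1 : ‖∑ y ∈ B, Sp θ (fun t x => ψ y t (x + y)) t‖ ≤ B.card := by
    refine (norm_sum_le _ _).trans ?_
    refine (Finset.sum_le_sum fun y _ => Sp_le (h y).shift θ t).trans (le_of_eq ?_)
    simp
  rcases Nat.eq_zero_or_pos B.card with h0 | h0
  · rw [h0]
    simp
  · have h2 : (0 : ℝ) < B.card := by exact_mod_cast h0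
    rw [inv_mul_le_iff₀ h2, mul_one]
    exact h1

theorem FZ_int {lam b : ℝ} {ω : Zd d → ℝ} (hω : ∀ x, |ω x| ≤ b)
    {ψ : Zd d → ℝ → Zd d → ℂ} (h : ∀ y, Ev lam ω y (ψ y)) (θ : Fin d → ℝ) (η : ℝ) (hη : 0 < η)
    (B : Finset (Zd d)) :
    Integrable (fun E : ℝ => FZ lam ((E : ℂ) + η * Complex.I) θ B ω) ∧
      IntegrableOn (fun t : ℝ => ((2 * η * Real.exp (-(2 * η * t)) : ℝ) : ℂ) * SB θ B ψ t)
        (Set.Ioi 0) ∧
      ∫ E : ℝ, FZ lam ((E : ℂ) + η * Complex.I) θ B ω =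
        Real.pi * ∫ t in Set.Ioi (0 : ℝ), ((2 * η * Real.exp (-(2 * η * t)) : ℝ) : ℂ) *
          SB θ B ψ t := by
  have h1 := fun y => Ph_int (b := b) (lam := lam) (ω := sh y ω) (fun x => hω _) (h y).shift θ η hη
  have e1 : (fun t : ℝ => ((2 * η * Real.exp (-(2 * η * t)) : ℝ) : ℂ) * SB θ B ψ t) =
      fun t => (B.card : ℂ)⁻¹ * ∑ y ∈ B, ((2 * η * Real.exp (-(2 * η * t)) : ℝ) : ℂ) *
        Sp θ (fun t x => ψ y t (x + y)) t := by
    funext t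
    unfold SB
    rw [← Finset.mul_sum]
    ring
  rw [e1]
  unfold FZ
  refine ⟨(integrable_finset_sum _ fun y _ => (h1 y).1).const_mul _,
    (integrable_finset_sum _ fun y _ => (h1 y).2.1).const_mul _, ?_⟩
  rw [integral_const_mul, integral_const_mul, integral_finset_sum _ fun y _ => (h1 y).1,
    integral_finset_sum _ fun y _ => (h1 y).2.1, Finset.sum_congr rfl fun y _ => (h1 y).2.2,
    ← Finset.mul_sum]
  ring

theorem FZ_norm {lam b : ℝ} {ω : Zd d → ℝ} (hω : ∀ x, |ω x| ≤ b)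
    {ψ : Zd d → ℝ → Zd d → ℂ} (h : ∀ y, Ev lam ω y (ψ y)) (θ : Fin d → ℝ) (η : ℝ) (hη : 0 < η)
    (B : Finset (Zd d)) (E : ℝ) :
    ‖FZ lam ((E : ℂ) + η * Complex.I) θ B ω‖ ≤ (FZ lam ((E : ℂ) + η * Complex.I) 0 B ω).re := by
  unfold FZ
  rw [norm_mul, norm_inv, Complex.norm_natCast]
  have e1 : ((B.card : ℂ)⁻¹ * ∑ y ∈ B, Ph lam ((E : ℂ) + η * Complex.I) 0 (sh y ω)).re =
      (B.card : ℝ)⁻¹ * ∑ y ∈ B, (Ph lam ((E : ℂ) + η * Complex.I) 0 (sh y ω)).re := by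
    rw [← Complex.ofReal_natCast, ← Complex.ofReal_inv, Complex.re_ofReal_mul, Complex.re_sum]
  rw [e1]
  refine mul_le_mul_of_nonneg_left ?_ (by positivity)
  refine (norm_sum_le _ _).trans (Finset.sum_le_sum fun y _ => ?_)
  exact Ph_norm (b := b) (fun x => hω _) (h y).shift θ η hη E

theorem FZ_mass {lam b : ℝ} {ω : Zd d → ℝ} (hω : ∀ x, |ω x| ≤ b)
    {ψ : Zd d → ℝ → Zd d → ℂ} (h : ∀ y, Ev lam ω y (ψ y)) (η : ℝ) (hη : 0 < η)
    (B : Finset (Zd d)) (hB : B.Nonempty) :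
    ∫ E : ℝ, (FZ lam ((E : ℂ) + η * Complex.I) 0 B ω).re = Real.pi := by
  obtain ⟨h1, h2, h3⟩ := FZ_int hω h 0 η hη B
  have h4 : ∀ t, SB 0 B ψ t = 1 := by
    intro t
    unfold SB
    rw [Finset.sum_congr rfl fun y _ => Sp_zero (h y).shift t, Finset.sum_const, nsmul_eq_mul,
      mul_one]
    have : (B.card : ℂ) ≠ 0 := by exact_mod_cast hB.card_pos.ne'
    exact inv_mul_cancel₀ this
  have h5 : ∫ t in Set.Ioi (0 : ℝ), ((2 * η * Real.exp (-(2 * η * t)) : ℝ) : ℂ) * SB 0 B ψ t =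
      1 := by
    simp only [h4, mul_one]
    rw [integral_complex_ofReal, integral_const_mul, exp_val (2 * η) (by linarith), mul_one_div,
      div_self (by positivity), Complex.ofReal_one]
  rw [h5, mul_one] at h3
  have h6 := integral_re h1
  have h7 : ∫ E : ℝ, (FZ lam ((E : ℂ) + η * Complex.I) 0 B ω).re =
      (∫ E : ℝ, FZ lam ((E : ℂ) + η * Complex.I) 0 B ω).re := h6
  rw [h7, h3, Complex.ofReal_re]

end Pool.Agent.Zk93.TE
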