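import Pool.Agent.Zk93.TE.Dos
import Pool.Agent.Zk93.TE.Sum

/-! The Abel form of the diffusion theorem, all energies together. -/

set_option autoImplicit false

open scoped BigOperators Topology
open MeasureTheory Filter

namespace Pool.Agent.Zk93.TE

open Pool.Agent.Zk11.QD

variable {d : ℕ}

/-- bulk energies carry the whole mass -/
theorem bulk {Q : ℝ → ℂ} {Q0 g m : ℝ → ℝ} {a b E1 E2 M ε₁ ε₂ : ℝ} (hQ : Integrable Q)
    (hQ0 : Integrable Q0) (hle : ∀ E, ‖Q E‖ ≤ Q0 E) (hM : ∫ E, Q0 E = M)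
    (hE1 : a < E1) (hE2 : E2 < b) (h12 : E1 ≤ E2)
    (hg : IntegrableOn g (Set.Ioo a b)) (hm : IntegrableOn m (Set.Ioo a b))
    (hm0 : ∀ E ∈ Set.Ioo a b, 0 ≤ m E) (hmg : ∀ E ∈ Set.Ioo a b, m E ≤ g E)
    (hgM : ∫ E in Set.Ioo a b, g E ≤ M) (hgI : M - ε₁ ≤ ∫ E in Set.Icc E1 E2, g E)
    (h1 : ∀ E ∈ Set.Icc E1 E2, ‖Q E - (m E : ℂ)‖ ≤ ε₂)
    (h2 : ∀ E ∈ Set.Icc E1 E2, |Q0 E - g E| ≤ ε₂) :
    ‖(∫ E, Q E) - ((∫ E in Set.Ioo a b, m E : ℝ) : ℂ)‖ ≤ 2 * ε₁ + 2 * (ε₂ * (E2 - E1)) := by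
  set I := Set.Icc E1 E2 with hI
  have hIm : MeasurableSet I := measurableSet_Icc
  have hsub : I ⊆ Set.Ioo a b := fun E hE => ⟨lt_of_lt_of_le hE1 hE.1, lt_of_le_of_lt hE.2 hE2⟩
  have hvol : volume.real I = E2 - E1 := by
    rw [hI, Real.volume_real_Icc_of_le h12]
  have hgi : IntegrableOn g I := hg.mono_set hsub
  have hmi : IntegrableOn m I := hm.mono_set hsub
  -- on the bulk
  have b1 : ‖(∫ E in I, Q E) - ((∫ E in I, m E : ℝ) : ℂ)‖ ≤ ε₂ * (E2 - E1) := by
    have hmc : IntegrableOn (fun E => (m E : ℂ)) I := hmi.ofReal (𝕜 := ℂ)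
    rw [← integral_complex_ofReal, ← integral_sub hQ.integrableOn hmc, ← hvol]
    exact norm_setIntegral_le_of_norm_le_const (by rw [hI]; exact measure_Icc_lt_top) h1
  have b2 : (∫ E in I, g E) - ε₂ * (E2 - E1) ≤ ∫ E in I, Q0 E := by
    have h3 : |∫ E in I, (Q0 E - g E)| ≤ ε₂ * (E2 - E1) := by
      rw [← Real.norm_eq_abs, ← hvol]
      exact norm_setIntegral_le_of_norm_le_const (by rw [hI]; exact measure_Icc_lt_top) h2
    rw [integral_sub hQ0.integrableOn hgi] at h3
    have := (abs_le.1 h3).1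
    linarith
  -- off the bulk
  have b3 : ‖∫ E in Iᶜ, Q E‖ ≤ ε₁ + ε₂ * (E2 - E1) := by
    have h3 : ‖∫ E in Iᶜ, Q E‖ ≤ ∫ E in Iᶜ, Q0 E :=
      norm_integral_le_of_norm_le hQ0.integrableOn (Eventually.of_forall hle)
    have h4 := integral_add_compl hIm hQ0
    rw [hM] at h4
    linarith
  have b4 : |(∫ E in Set.Ioo a b, m E) - ∫ E in I, m E| ≤ ε₁ := by
    have e1 := integral_diff hIm hm hsub
    have e2 := integral_diff hIm hg hsub
    rw [← e1]
    have hdm : MeasurableSet (Set.Ioo a b \ I) := measurableSet_Ioo.diff hIm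
    have h3 : 0 ≤ ∫ E in Set.Ioo a b \ I, m E :=
      setIntegral_nonneg hdm fun E hE => hm0 E hE.1
    have h4 : ∫ E in Set.Ioo a b \ I, m E ≤ ∫ E in Set.Ioo a b \ I, g E :=
      setIntegral_mono_on (hm.mono_set Set.diff_subset) (hg.mono_set Set.diff_subset) hdm
        fun E hE => hmg E hE.1
    rw [abs_of_nonneg h3]
    rw [e2] at h4
    linarith
  have h5 := integral_add_compl hIm hQ
  rw [← h5]
  have e3 : (∫ E in I, Q E) + (∫ E in Iᶜ, Q E) - ((∫ E in Set.Ioo a b, m E : ℝ) : ℂ) =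
      ((∫ E in I, Q E) - ((∫ E in I, m E : ℝ) : ℂ)) + (∫ E in Iᶜ, Q E) -
        (((∫ E in Set.Ioo a b, m E) - ∫ E in I, m E : ℝ) : ℂ) := by
    push_cast
    ring
  rw [e3]
  refine (norm_sub_le _ _).trans ?_
  rw [Complex.norm_real, Real.norm_eq_abs]
  refine (add_le_add (norm_add_le _ _) le_rfl).trans ?_
  linarith

/-- the diffusion constant -/
noncomputable def Dd (d : ℕ) (V E : ℝ) : ℝ := (h0 d E).im / (4 * (g0 d E).im ^ 2 * V)

theorem Dd_nonneg (hd : 3 ≤ d) {V : ℝ} (hV : 0 < V) {E : ℝ} (hE : E ∈ Set.Ioo 0 (4 * d : ℝ)) :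
    0 ≤ Dd d V E := by
  have := g0_pos hd E hE.1 hE.2
  have := h0_pos hd E hE.1 hE.2
  unfold Dd
  positivity

theorem Dd_meas (hd : 3 ≤ d) (V : ℝ) : Measurable (Dd d V) := by
  unfold Dd
  exact (h0_im_cont hd).measurable.div
    (((measurable_const.mul ((g0_im_cont hd).measurable.pow_const 2))).mul_const V)

/-- the limit in Abel form -/
noncomputable def Mf (d : ℕ) (V c : ℝ) : ℝ :=
  ∫ E in Set.Ioo 0 (4 * d : ℝ), (g0 d E).im / (1 + Dd d V E * c)

/-- the limit at a fixed time -/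
noncomputable def Mt (d : ℕ) (V c τ : ℝ) : ℝ :=
  ∫ E in Set.Ioo 0 (4 * d : ℝ), (g0 d E).im * Real.exp (-(2 * τ * Dd d V E * c))

theorem Mf_int (hd : 3 ≤ d) {V : ℝ} (hV : 0 < V) {c : ℝ} (hc : 0 ≤ c) :
    IntegrableOn (fun E => (g0 d E).im / (1 + Dd d V E * c)) (Set.Ioo 0 (4 * d : ℝ)) := by
  refine Integrable.mono' (dos_int hd) ?_ ?_
  · exact ((g0_im_cont hd).measurable.div
      (measurable_const.add ((Dd_meas hd V).mul_const c))).aestronglyMeasurable
  · refine (ae_restrict_mem measurableSet_Ioo).mono fun E hE => ?_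
    have h1 := Dd_nonneg hd hV hE
    have h2 := g0_pos hd E hE.1 hE.2
    rw [Real.norm_eq_abs, abs_of_nonneg (by positivity)]
    exact div_le_self h2.le (by have := mul_nonneg h1 hc; linarith)

/-- Laplace transform of the limit -/
theorem Mt_lap (hd : 3 ≤ d) {V : ℝ} (hV : 0 < V) {c : ℝ} (hc : 0 ≤ c) (s : ℝ) (hs : 0 < s) :
    IntegrableOn (fun τ => s * Real.exp (-(s * τ)) * Mt d V c τ) (Set.Ioi 0) ∧
    ∫ τ in Set.Ioi (0 : ℝ), s * Real.exp (-(s * τ)) * Mt d V c τ = Mf d V (2 * c / s) := by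
  set f : ℝ → ℝ → ℝ := fun τ E => s * Real.exp (-(s * τ)) *
    ((g0 d E).im * Real.exp (-(2 * τ * Dd d V E * c))) with hf
  have hmeas : Measurable (Function.uncurry f) := by
    rw [hf]
    unfold Function.uncurry
    have m1 : Measurable fun p : ℝ × ℝ => (g0 d p.2).im :=
      (g0_im_cont hd).measurable.comp measurable_snd
    have m2 : Measurable fun p : ℝ × ℝ => Dd d V p.2 := (Dd_meas hd V).comp measurable_snd
    have m3 : Measurable fun p : ℝ × ℝ => p.1 := measurable_fst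
    exact ((measurable_const.mul (Real.measurable_exp.comp ((measurable_const.mul m3).neg)))).mul
      (m1.mul (Real.measurable_exp.comp ((((measurable_const.mul m3).mul m2).mul_const c).neg)))
  have hint : Integrable (Function.uncurry f)
      ((volume.restrict (Set.Ioi 0)).prod (volume.restrict (Set.Ioo 0 (4 * d : ℝ)))) := by
    have h1 : Integrable (fun τ : ℝ => s * Real.exp (-(s * τ))) (volume.restrict (Set.Ioi 0)) :=
      (exp_int s hs).const_mul s
    have h2 := h1.mul_prod (dos_int hd)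
    refine Integrable.mono' h2 hmeas.aestronglyMeasurable ?_
    rw [Measure.prod_restrict]
    refine (ae_restrict_mem (measurableSet_Ioi.prod measurableSet_Ioo)).mono fun p hp => ?_
    obtain ⟨hp1, hp2⟩ := hp
    have hp1' : 0 < p.1 := hp1
    have h3 := Dd_nonneg hd hV hp2
    have h4 := g0_pos hd p.2 hp2.1 hp2.2
    rw [hf]
    unfold Function.uncurry
    simp only
    rw [Real.norm_eq_abs, abs_of_nonneg (by positivity)]
    refine mul_le_mul_of_nonneg_left ?_ (by positivity)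
    refine mul_le_of_le_one_right h4.le ?_
    rw [Real.exp_le_one_iff]
    have : 0 ≤ 2 * p.1 * Dd d V p.2 * c := by positivity
    linarith
  have hswap := integral_integral_swap hint
  have e1 : ∀ τ, ∫ E in Set.Ioo 0 (4 * d : ℝ), f τ E = s * Real.exp (-(s * τ)) * Mt d V c τ := by
    intro τ
    rw [hf]
    unfold Mt
    simp only
    rw [integral_const_mul]
  refine ⟨?_, ?_⟩
  · have h5 := hint.integral_prod_left
    refine h5.congr (Eventually.of_forall fun τ => ?_)
    exact e1 τ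
  · simp only [e1] at hswap
    rw [hswap]
    unfold Mf
    refine setIntegral_congr_fun measurableSet_Ioo fun E hE => ?_
    have h3 := Dd_nonneg hd hV hE
    have hpos : 0 < s + 2 * Dd d V E * c := by positivity
    have e2 : ∀ τ, f τ E = s * (g0 d E).im * Real.exp (-((s + 2 * Dd d V E * c) * τ)) := by
      intro τ
      rw [hf]
      simp only
      have : Real.exp (-((s + 2 * Dd d V E * c) * τ)) =
          Real.exp (-(s * τ)) * Real.exp (-(2 * τ * Dd d V E * c)) := by
        rw [← Real.exp_add]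
        congr 1
        ring
      rw [this]
      ring
    simp only [e2]
    rw [integral_const_mul, exp_val _ hpos]
    have h1 : 0 < 1 + Dd d V E * (2 * c / s) := by positivity
    field_simp

theorem Mt_bd (hd : 3 ≤ d) {V : ℝ} (hV : 0 < V) {c : ℝ} (hc : 0 ≤ c) (τ : ℝ) (hτ : 0 ≤ τ) :
    0 ≤ Mt d V c τ ∧ Mt d V c τ ≤ Real.pi := by
  unfold Mt
  constructor
  · refine setIntegral_nonneg measurableSet_Ioo fun E hE => ?_
    have h4 := g0_pos hd E hE.1 hE.2
    positivity
  · rw [← dos_one hd]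
    refine integral_mono_of_nonneg ?_ (dos_int hd) ?_
    · refine (ae_restrict_mem measurableSet_Ioo).mono fun E hE => ?_
      have h4 := g0_pos hd E hE.1 hE.2
      simp only [Pi.zero_apply]
      positivity
    · refine (ae_restrict_mem measurableSet_Ioo).mono fun E hE => ?_
      have h4 := g0_pos hd E hE.1 hE.2
      have h3 := Dd_nonneg hd hV hE
      refine mul_le_of_le_one_right h4.le ?_
      rw [Real.exp_le_one_iff]
      have : 0 ≤ 2 * τ * Dd d V E * c := by positivity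
      linarith

theorem Mt_meas (hd : 3 ≤ d) (V c : ℝ) : StronglyMeasurable (Mt d V c) := by
  unfold Mt
  have m1 : Measurable fun p : ℝ × ℝ => (g0 d p.2).im :=
    (g0_im_cont hd).measurable.comp measurable_snd
  have m2 : Measurable fun p : ℝ × ℝ => Dd d V p.2 := (Dd_meas hd V).comp measurable_snd
  have m3 : Measurable fun p : ℝ × ℝ => p.1 := measurable_fst
  have h : Measurable (Function.uncurry fun τ E : ℝ =>
      (g0 d E).im * Real.exp (-(2 * τ * Dd d V E * c))) := by
    unfold Function.uncurry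
    exact m1.mul (Real.measurable_exp.comp ((((measurable_const.mul m3).mul m2).mul_const c).neg))
  exact h.stronglyMeasurable.integral_prod_right

end Pool.Agent.Zk93.TE
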