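import Pool.Agent.Zk60.LL.Dos

/-! The free density of states: upper bound and total mass. -/

set_option autoImplicit false

open scoped BigOperators Topology
open MeasureTheory Filter

namespace Pool.Agent.Zk93.TE

open Pool.Agent.Zk11.QD
open Pool.Agent.Zk60.LL.Dos (po_integral po_nonneg dos_mass)

variable {d : ℕ}

theorem cube_vol : volume (cube d) = 1 := by
  unfold cube
  rw [volume_pi, Measure.pi_pi]
  simp

theorem dos_le (hd : 3 ≤ d) (E1 E2 : ℝ) (h12 : E1 ≤ E2) :
    ∫ u in Set.Icc E1 E2, (g0 d u).im ≤ Real.pi := by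
  have hpi := Real.pi_pos
  set C0 : ℝ := ∫ t in Set.Ioi (0 : ℝ), ‖GG d t‖ with hC0
  set δ : ℕ → ℝ := fun n => 1 / ((n : ℝ) + 1) with hδ
  have hδ0 : ∀ n, 0 < δ n := fun n => by rw [hδ]; positivity
  have hδlim : Tendsto δ atTop (𝓝[>] 0) := by
    rw [tendsto_nhdsWithin_iff]
    exact ⟨tendsto_one_div_add_atTop_nhds_zero_nat, Eventually.of_forall hδ0⟩
  have hrep : ∀ (n : ℕ) (u : ℝ), ∫ k in cube d, po (δ n) (ek k - u) =
      (Lap (GG d) ((u : ℂ) + (δ n : ℝ) * Complex.I)).im := by
    intro n u
    rw [GG_rep _ (by simpa using hδ0 n), po_im (fun _ => 1) continuous_const u (δ n) (hδ0 n)]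
    simp only [one_mul]
  have hdom : Tendsto (fun n => ∫ u in Set.Icc E1 E2, ∫ k in cube d, po (δ n) (ek k - u)) atTop
      (𝓝 (∫ u in Set.Icc E1 E2, (g0 d u).im)) := by
    refine tendsto_integral_of_dominated_convergence (fun _ => C0) (fun n => ?_)
      (integrable_const _) (fun n => ?_) ?_
    · refine Continuous.aestronglyMeasurable ?_
      simp only [hrep]
      refine Complex.continuous_im.comp ?_
      rw [continuous_iff_continuousAt]
      intro u
      have h1 : Continuous fun u : ℝ => Lap (GG d) ((u : ℂ) + (δ n : ℝ) * Complex.I) := by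
        unfold Lap
        refine continuous_const.mul ?_
        refine continuous_of_dominated (bound := fun t => ‖GG d t‖) (fun v => ?_) (fun v => ?_)
          (GG_int hd).norm ?_
        · exact (Continuous.mul (by fun_prop) GG_cont).aestronglyMeasurable
        · refine (ae_restrict_mem measurableSet_Ioi).mono fun t ht => ?_
          have ht0 : 0 < t := ht
          rw [norm_mul, exp_norm]
          have h2 : Real.exp (-(((v : ℂ) + (δ n : ℝ) * Complex.I).im * t)) ≤ 1 := by
            rw [Real.exp_le_one_iff]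
            have : ((v : ℂ) + (δ n : ℝ) * Complex.I).im = δ n := by simp
            rw [this]
            have := hδ0 n
            nlinarith
          exact mul_le_of_le_one_left (norm_nonneg _) h2
        · refine Eventually.of_forall fun t => ?_
          fun_prop
      exact h1.continuousAt
    · refine Eventually.of_forall fun u => ?_
      rw [hrep, Real.norm_eq_abs]
      refine (Complex.abs_im_le_norm _).trans ?_
      exact lap_bound (GG d) (GG_int hd) _ (by simpa using (hδ0 n).le)
    · refine Eventually.of_forall fun u => ?_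
      exact (g0_po hd u).comp hδlim
  refine le_of_tendsto' hdom fun n => ?_
  have hjc : Continuous fun p : ℝ × (Fin d → ℝ) => po (δ n) (ek p.2 - p.1) :=
    (po_cont (δ n) (hδ0 n)).comp ((ek_cont.comp continuous_snd).sub continuous_fst)
  have hfin : volume (cube d) < ⊤ := by rw [cube_vol]; exact ENNReal.one_lt_top
  haveI : IsFiniteMeasure (volume.restrict (cube d)) := ⟨by
    rw [Measure.restrict_apply_univ]; exact hfin⟩
  have hint : Integrable (fun p : ℝ × (Fin d → ℝ) => po (δ n) (ek p.2 - p.1))
      ((volume.restrict (Set.Icc E1 E2)).prod (volume.restrict (cube d))) := by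
    refine Integrable.mono' (integrable_const (1 / δ n)) hjc.aestronglyMeasurable
      (Eventually.of_forall fun p => ?_)
    have h0 := hδ0 n
    rw [Real.norm_eq_abs, abs_of_nonneg (po_nonneg _ _ h0)]
    unfold po
    rw [div_le_div_iff₀ (by positivity) h0]
    nlinarith [sq_nonneg (ek p.2 - p.1)]
  have hswap := integral_integral_swap (f := fun (u : ℝ) (k : Fin d → ℝ) =>
    po (δ n) (ek k - u)) (μ := volume.restrict (Set.Icc E1 E2)) (ν := volume.restrict (cube d)) hint
  rw [hswap]
  have hik : Integrable (fun k : Fin d → ℝ => ∫ u in Set.Icc E1 E2, po (δ n) (ek k - u))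
      (volume.restrict (cube d)) := hint.integral_prod_right
  have h1 : ∫ k in cube d, ∫ u in Set.Icc E1 E2, po (δ n) (ek k - u) ≤
      ∫ _k in cube d, Real.pi := by
    refine integral_mono hik (integrable_const _) fun k => ?_
    simp only
    rw [po_integral (δ n) (ek k) E1 E2 (hδ0 n) h12]
    have h2 := Real.arctan_lt_pi_div_two ((ek k - E1) / δ n)
    have h3 := Real.neg_pi_div_two_lt_arctan ((ek k - E2) / δ n)
    linarith
  refine h1.trans (le_of_eq ?_)
  rw [integral_const, smul_eq_mul, measureReal_restrict_apply_univ, measureReal_def, cube_vol]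
  simp

theorem g0_im_cont (hd : 3 ≤ d) : Continuous fun E : ℝ => (g0 d E).im :=
  Complex.continuous_im.comp (g0_cont hd)

theorem h0_im_cont (hd : 3 ≤ d) : Continuous fun E : ℝ => (h0 d E).im :=
  Complex.continuous_im.comp (h0_cont hd)

theorem dos_int (hd : 3 ≤ d) : IntegrableOn (fun E : ℝ => (g0 d E).im) (Set.Ioo 0 (4 * d : ℝ)) :=
  ((g0_im_cont hd).integrableOn_Icc (a := 0) (b := 4 * (d : ℝ))).mono_set Set.Ioo_subset_Icc_self

theorem dos_one (hd : 3 ≤ d) : ∫ E in Set.Ioo 0 (4 * d : ℝ), (g0 d E).im = Real.pi := by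
  apply le_antisymm
  · have h1 := dos_le hd 0 (4 * d : ℝ) (by positivity)
    rwa [integral_Icc_eq_integral_Ioo] at h1
  · refine le_of_forall_pos_le_add fun ε hε => ?_
    obtain ⟨E1, E2, hE1, h12, hE2, hm⟩ := dos_mass (d := d) hd ε hε
    have h2 : ∫ u in Set.Icc E1 E2, (g0 d u).im ≤ ∫ u in Set.Ioo 0 (4 * d : ℝ), (g0 d u).im := by
      refine setIntegral_mono_set (dos_int hd) ?_ ?_
      · refine (ae_restrict_mem measurableSet_Ioo).mono fun E hE => ?_
        exact (g0_pos hd E hE.1 hE.2).le
      · refine Eventually.of_forall fun E hE => ?_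
        exact ⟨lt_of_lt_of_le hE1 hE.1, lt_of_le_of_lt hE.2 hE2⟩
    linarith

end Pool.Agent.Zk93.TE
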