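import Mathlib

/-! From Laplace transforms to time windows. -/

set_option autoImplicit false

open scoped BigOperators Topology
open MeasureTheory Filter

namespace Pool.Agent.Zk93.TE

theorem exp_int' (s : ℝ) (hs : 0 < s) :
    IntegrableOn (fun t : ℝ => Real.exp (-(s * t))) (Set.Ioi 0) := by
  have := integrableOn_exp_mul_Ioi (a := -s) (by linarith) 0
  simpa using this

theorem exp_val' (s : ℝ) (hs : 0 < s) :
    ∫ t in Set.Ioi (0 : ℝ), Real.exp (-(s * t)) = 1 / s := by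
  have := integral_exp_mul_Ioi (a := -s) (by linarith) 0
  simp at this
  rw [one_div, ← this]

/-- the trapezoid -/
noncomputable def tz (c h τ : ℝ) : ℝ := max 0 (min 1 (1 + (c - τ) / h))

theorem tz_cont (c h : ℝ) : Continuous (tz c h) := by
  unfold tz
  fun_prop

theorem tz_one {c h τ : ℝ} (hh : 0 < h) (hτ : τ ≤ c) : tz c h τ = 1 := by
  unfold tz
  have : 0 ≤ (c - τ) / h := div_nonneg (by linarith) hh.le
  rw [min_eq_left (by linarith), max_eq_right zero_le_one]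

theorem tz_zero {c h τ : ℝ} (hh : 0 < h) (hτ : c + h ≤ τ) : tz c h τ = 0 := by
  unfold tz
  have : (c - τ) / h ≤ -1 := by
    rw [div_le_iff₀ hh]
    linarith
  exact max_eq_left ((min_le_right _ _).trans (by linarith))

theorem tz_mem (c h τ : ℝ) : 0 ≤ tz c h τ ∧ tz c h τ ≤ 1 := by
  unfold tz
  exact ⟨le_max_left _ _, max_le zero_le_one (min_le_left _ _)⟩

/-- the function to be approximated -/
noncomputable def qz (c h x : ℝ) : ℝ := tz c h (-Real.log x) / x

theorem qz_cont (c h : ℝ) (hh : 0 < h) : ContinuousOn (qz c h) (Set.Icc 0 1) := by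
  intro x hx
  rcases eq_or_lt_of_le hx.1 with h0 | h0
  · -- near zero the function vanishes
    subst h0
    have h1 : ∀ᶠ y in 𝓝 (0 : ℝ), y ≤ 0 ∨ y < Real.exp (-(c + h)) := by
      filter_upwards [gt_mem_nhds (Real.exp_pos (-(c + h)))] with y hy
      exact Or.inr hy
    have h2 : ∀ᶠ y in 𝓝[Set.Icc (0 : ℝ) 1] 0, qz c h y = qz c h 0 := by
      filter_upwards [mem_nhdsWithin_of_mem_nhds (gt_mem_nhds (Real.exp_pos (-(c + h)))),
        self_mem_nhdsWithin] with y hy hy2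
      have e0 : qz c h 0 = 0 := by unfold qz; simp
      rw [e0]
      rcases eq_or_lt_of_le hy2.1 with h3 | h3
      · rw [← h3]; exact e0
      · unfold qz
        rw [tz_zero hh, zero_div]
        have h4 : Real.log y ≤ -(c + h) := by
          have := Real.log_le_log h3 (le_of_lt hy)
          rwa [Real.log_exp] at this
        linarith
    exact (tendsto_congr' h2).2 tendsto_const_nhds
  · refine ContinuousAt.continuousWithinAt ?_
    unfold qz
    exact ((tz_cont c h).continuousAt.comp (Real.continuousAt_log h0.ne').neg).div continuousAt_id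
      h0.ne'

theorem poly (c : ℝ) (hc : 0 ≤ c) (ε : ℝ) (hε : 0 < ε) : ∃ p : Polynomial ℝ,
    ∫ τ in Set.Ioi (0 : ℝ), |(Set.Iic c).indicator (fun _ => (1 : ℝ)) τ -
      Real.exp (-τ) * p.eval (Real.exp (-τ))| ≤ ε := by
  set h : ℝ := ε / 2 with hh
  have hh0 : 0 < h := by positivity
  obtain ⟨p, hp⟩ := exists_polynomial_near_of_continuousOn 0 1 (qz c h) (qz_cont c h hh0) (ε / 2)
    (by positivity)
  refine ⟨p, ?_⟩
  have hbd : ∀ τ ∈ Set.Ioi (0 : ℝ), |(Set.Iic c).indicator (fun _ => (1 : ℝ)) τ -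
      Real.exp (-τ) * p.eval (Real.exp (-τ))| ≤
      (Set.Ioc c (c + h)).indicator (fun _ => (1 : ℝ)) τ + ε / 2 * Real.exp (-(1 * τ)) := by
    intro τ hτ
    have hτ0 : 0 < τ := hτ
    have hx0 := Real.exp_pos (-τ)
    have hx1 : Real.exp (-τ) ≤ 1 := Real.exp_le_one_iff.2 (by linarith)
    have h1 := (hp (Real.exp (-τ)) ⟨hx0.le, hx1⟩).le
    have h2 : |tz c h τ - Real.exp (-τ) * p.eval (Real.exp (-τ))| ≤
        ε / 2 * Real.exp (-(1 * τ)) := by
      have e1 : tz c h τ - Real.exp (-τ) * p.eval (Real.exp (-τ)) =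
          -(Real.exp (-τ) * (p.eval (Real.exp (-τ)) - qz c h (Real.exp (-τ)))) := by
        unfold qz
        rw [Real.log_exp, neg_neg]
        field_simp
        ring
      rw [e1, abs_neg, abs_mul, abs_of_pos hx0, one_mul, mul_comm]
      exact mul_le_mul_of_nonneg_right h1 hx0.le
    have h3 : |(Set.Iic c).indicator (fun _ => (1 : ℝ)) τ - tz c h τ| ≤
        (Set.Ioc c (c + h)).indicator (fun _ => (1 : ℝ)) τ := by
      by_cases h4 : τ ≤ c
      · rw [Set.indicator_of_mem (show τ ∈ Set.Iic c from h4), tz_one hh0 h4, sub_self, abs_zero]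
        exact Set.indicator_nonneg (fun _ _ => zero_le_one) _
      · rw [Set.indicator_of_notMem (show τ ∉ Set.Iic c from h4), zero_sub, abs_neg]
        push Not at h4
        have h5 := tz_mem c h τ
        rw [abs_of_nonneg h5.1]
        by_cases h6 : τ ≤ c + h
        · rw [Set.indicator_of_mem (show τ ∈ Set.Ioc c (c + h) from ⟨h4, h6⟩)]
          exact h5.2
        · push Not at h6
          rw [tz_zero hh0 h6.le]
          exact Set.indicator_nonneg (fun _ _ => zero_le_one) _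
    have h7 := abs_sub_le ((Set.Iic c).indicator (fun _ => (1 : ℝ)) τ) (tz c h τ)
      (Real.exp (-τ) * p.eval (Real.exp (-τ)))
    linarith
  have hi1 : IntegrableOn (fun τ => (Set.Ioc c (c + h)).indicator (fun _ => (1 : ℝ)) τ)
      (Set.Ioi 0) := by
    refine Integrable.integrableOn ?_
    rw [integrable_indicator_iff measurableSet_Ioc]
    exact integrableOn_const (by simp) (by simp)
  have hi2 : IntegrableOn (fun τ : ℝ => ε / 2 * Real.exp (-(1 * τ))) (Set.Ioi 0) :=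
    (exp_int' 1 one_pos).const_mul _
  calc ∫ τ in Set.Ioi (0 : ℝ), |(Set.Iic c).indicator (fun _ => (1 : ℝ)) τ -
      Real.exp (-τ) * p.eval (Real.exp (-τ))|
      ≤ ∫ τ in Set.Ioi (0 : ℝ), ((Set.Ioc c (c + h)).indicator (fun _ => (1 : ℝ)) τ +
        ε / 2 * Real.exp (-(1 * τ))) :=
        integral_mono_of_nonneg (Eventually.of_forall fun τ => abs_nonneg _) (hi1.add hi2)
          ((ae_restrict_mem measurableSet_Ioi).mono hbd)
    _ = (∫ τ in Set.Ioi (0 : ℝ), (Set.Ioc c (c + h)).indicator (fun _ => (1 : ℝ)) τ) +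
        ε / 2 := by
        rw [integral_add hi1 hi2, integral_const_mul, exp_val' 1 one_pos, div_one, mul_one]
    _ = h + ε / 2 := by
        congr 1
        rw [setIntegral_indicator measurableSet_Ioc]
        have : Set.Ioi (0 : ℝ) ∩ Set.Ioc c (c + h) = Set.Ioc c (c + h) :=
          Set.inter_eq_right.2 fun x hx => lt_of_le_of_lt hc hx.1
        rw [this, integral_const, smul_eq_mul, mul_one, measureReal_restrict_apply_univ,
          Real.volume_real_Ioc_of_le (by linarith)]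
        ring
    _ = ε := by rw [hh]; ring

/-- the hypotheses on the difference -/
structure Ad (D : ℝ → ℂ) : Prop where
  meas : AEStronglyMeasurable D (volume.restrict (Set.Ioi 0))
  bd : ∀ τ, 0 < τ → ‖D τ‖ ≤ 2

theorem Ad.int {D : ℝ → ℂ} (h : Ad D) (s : ℝ) (hs : 0 < s) :
    IntegrableOn (fun τ => ((Real.exp (-(s * τ)) : ℝ) : ℂ) * D τ) (Set.Ioi 0) := by
  refine Integrable.mono' ((exp_int' s hs).mul_const 2) ?_ ?_
  · exact (Continuous.aestronglyMeasurable (by fun_prop)).mul h.meas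
  · refine (ae_restrict_mem measurableSet_Ioi).mono fun τ hτ => ?_
    rw [norm_mul, Complex.norm_real, Real.norm_eq_abs, abs_of_pos (Real.exp_pos _)]
    exact mul_le_mul_of_nonneg_left (h.bd τ hτ) (Real.exp_pos _).le

theorem Ad.intOn {D : ℝ → ℂ} (h : Ad D) {a c : ℝ} (ha : 0 ≤ a) :
    IntegrableOn D (Set.Ioc a c) := by
  have hsub : Set.Ioc a c ⊆ Set.Ioi 0 := fun x hx => lt_of_le_of_lt ha hx.1
  have hc2 : IntegrableOn (fun _ : ℝ => (2 : ℝ)) (Set.Ioc a c) :=
    integrableOn_const (by simp) (by simp)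
  refine Integrable.mono' hc2 (h.meas.mono_set hsub) ?_
  exact (ae_restrict_mem measurableSet_Ioc).mono fun τ hτ => h.bd τ (hsub hτ)

theorem Ad.small {D : ℝ → ℂ} (h : Ad D) {a c : ℝ} (ha : 0 ≤ a) (hac : a ≤ c) :
    ‖∫ τ in Set.Ioc a c, D τ‖ ≤ 2 * (c - a) := by
  have h1 := norm_setIntegral_le_of_norm_le_const (μ := volume) (s := Set.Ioc a c) (f := D)
    (C := 2) (by simp) (fun τ hτ => h.bd τ (lt_of_le_of_lt ha hτ.1))
  rwa [Real.volume_real_Ioc_of_le hac] at h1

theorem one_win (c : ℝ) (hc : 0 ≤ c) (ε : ℝ) (hε : 0 < ε) : ∃ (K : ℕ) (ε' : ℝ), 0 < ε' ∧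
    ∀ D : ℝ → ℂ, Ad D → (∀ k : ℕ, 1 ≤ k → k ≤ K →
      ‖∫ τ in Set.Ioi (0 : ℝ), ((Real.exp (-((k : ℝ) * τ)) : ℝ) : ℂ) * D τ‖ ≤ ε') →
      ‖∫ τ in Set.Ioc 0 c, D τ‖ ≤ ε := by
  obtain ⟨p, hp⟩ := poly c hc (ε / 4) (by positivity)
  set A : ℝ := ∑ i ∈ Finset.range (p.natDegree + 1), |p.coeff i| with hA
  have hA0 : 0 ≤ A := Finset.sum_nonneg fun _ _ => abs_nonneg _
  refine ⟨p.natDegree + 1, ε / (2 * (A + 1)), by positivity, fun D hD hk => ?_⟩
  -- the polynomial part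
  have hpol : ∀ τ : ℝ, ((Real.exp (-τ) * p.eval (Real.exp (-τ)) : ℝ) : ℂ) * D τ =
      ∑ i ∈ Finset.range (p.natDegree + 1), (p.coeff i : ℂ) *
        (((Real.exp (-(((i + 1 : ℕ) : ℝ) * τ)) : ℝ) : ℂ) * D τ) := by
    intro τ
    have e1 : Real.exp (-τ) * p.eval (Real.exp (-τ)) =
        ∑ i ∈ Finset.range (p.natDegree + 1), p.coeff i *
          Real.exp (-(((i + 1 : ℕ) : ℝ) * τ)) := by
      rw [Polynomial.eval_eq_sum_range, Finset.mul_sum]
      refine Finset.sum_congr rfl fun i _ => ?_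
      have : Real.exp (-(((i + 1 : ℕ) : ℝ) * τ)) = Real.exp (-τ) ^ (i + 1) := by
        rw [← Real.exp_nat_mul]
        congr 1
        ring
      rw [this, pow_succ]
      ring
    rw [e1]
    push_cast
    rw [Finset.sum_mul]
    refine Finset.sum_congr rfl fun i _ => ?_
    ring
  have hint : ∀ i : ℕ, IntegrableOn (fun τ : ℝ => (p.coeff i : ℂ) *
        (((Real.exp (-(((i + 1 : ℕ) : ℝ) * τ)) : ℝ) : ℂ) * D τ)) (Set.Ioi 0) := fun i =>
    (hD.int ((i + 1 : ℕ) : ℝ) (by positivity)).const_mul _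
  have hI : IntegrableOn (fun τ : ℝ => ((Real.exp (-τ) * p.eval (Real.exp (-τ)) : ℝ) : ℂ) * D τ)
      (Set.Ioi 0) := by
    simp only [hpol]
    exact integrable_finsetSum _ fun i _ => hint i
  have h1 : ‖∫ τ in Set.Ioi (0 : ℝ), ((Real.exp (-τ) * p.eval (Real.exp (-τ)) : ℝ) : ℂ) * D τ‖ ≤
      ε / 2 := by
    simp only [hpol]
    rw [integral_finsetSum _ fun i _ => hint i]
    refine (norm_sum_le _ _).trans ?_
    have h2 : ∀ i ∈ Finset.range (p.natDegree + 1), ‖∫ τ in Set.Ioi (0 : ℝ), (p.coeff i : ℂ) *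
        (((Real.exp (-(((i + 1 : ℕ) : ℝ) * τ)) : ℝ) : ℂ) * D τ)‖ ≤
        |p.coeff i| * (ε / (2 * (A + 1))) := by
      intro i hi
      rw [integral_const_mul, norm_mul, Complex.norm_real, Real.norm_eq_abs]
      refine mul_le_mul_of_nonneg_left ?_ (abs_nonneg _)
      exact hk (i + 1) (by omega) (by rw [Finset.mem_range] at hi; omega)
    refine (Finset.sum_le_sum h2).trans ?_
    rw [← Finset.sum_mul, ← hA]
    have h3 : A * (ε / (2 * (A + 1))) ≤ (A + 1) * (ε / (2 * (A + 1))) :=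
      mul_le_mul_of_nonneg_right (by linarith) (by positivity)
    refine h3.trans (le_of_eq ?_)
    field_simp
  -- the remainder
  have hi0 : IntegrableOn (fun τ : ℝ => (((Set.Iic c).indicator (fun _ => (1 : ℝ)) τ : ℝ) : ℂ) *
      D τ) (Set.Ioi 0) := by
    have h4 : (fun τ : ℝ => (((Set.Iic c).indicator (fun _ => (1 : ℝ)) τ : ℝ) : ℂ) * D τ) =
        (Set.Iic c).indicator D := by
      funext τ
      by_cases h5 : τ ∈ Set.Iic c
      · rw [Set.indicator_of_mem h5, Set.indicator_of_mem h5, Complex.ofReal_one, one_mul]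
      · rw [Set.indicator_of_notMem h5, Set.indicator_of_notMem h5, Complex.ofReal_zero, zero_mul]
    rw [h4, IntegrableOn, integrable_indicator_iff measurableSet_Iic, IntegrableOn,
      Measure.restrict_restrict measurableSet_Iic, Set.inter_comm, Set.Ioi_inter_Iic]
    exact hD.intOn le_rfl
  have h5 : ∫ τ in Set.Ioc 0 c, D τ = ∫ τ in Set.Ioi (0 : ℝ),
      (((Set.Iic c).indicator (fun _ => (1 : ℝ)) τ : ℝ) : ℂ) * D τ := by
    have h4 : (fun τ : ℝ => (((Set.Iic c).indicator (fun _ => (1 : ℝ)) τ : ℝ) : ℂ) * D τ) =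
        (Set.Iic c).indicator D := by
      funext τ
      by_cases h5 : τ ∈ Set.Iic c
      · rw [Set.indicator_of_mem h5, Set.indicator_of_mem h5, Complex.ofReal_one, one_mul]
      · rw [Set.indicator_of_notMem h5, Set.indicator_of_notMem h5, Complex.ofReal_zero, zero_mul]
    rw [h4, setIntegral_indicator measurableSet_Iic, Set.Ioi_inter_Iic]
  have h6 : ‖(∫ τ in Set.Ioc 0 c, D τ) -
      ∫ τ in Set.Ioi (0 : ℝ), ((Real.exp (-τ) * p.eval (Real.exp (-τ)) : ℝ) : ℂ) * D τ‖ ≤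
      ε / 2 := by
    rw [h5, ← integral_sub hi0 hI]
    have hpI : IntegrableOn (fun τ : ℝ => |(Set.Iic c).indicator (fun _ => (1 : ℝ)) τ -
      Real.exp (-τ) * p.eval (Real.exp (-τ))|) (Set.Ioi 0) := by
      refine Integrable.abs (Integrable.sub ?_ ?_)
      · rw [integrable_indicator_iff measurableSet_Iic, IntegrableOn,
          Measure.restrict_restrict measurableSet_Iic, Set.inter_comm, Set.Ioi_inter_Iic]
        exact integrableOn_const (by simp) (by simp)
      · have e1 : ∀ τ : ℝ, Real.exp (-τ) * p.eval (Real.exp (-τ)) =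
          ∑ i ∈ Finset.range (p.natDegree + 1), p.coeff i *
            Real.exp (-(((i + 1 : ℕ) : ℝ) * τ)) := by
          intro τ
          rw [Polynomial.eval_eq_sum_range, Finset.mul_sum]
          refine Finset.sum_congr rfl fun i _ => ?_
          have : Real.exp (-(((i + 1 : ℕ) : ℝ) * τ)) = Real.exp (-τ) ^ (i + 1) := by
            rw [← Real.exp_nat_mul]
            congr 1
            ring
          rw [this, pow_succ]
          ring
        simp only [e1]
        exact integrable_finsetSum _ fun i _ => (exp_int' ((i + 1 : ℕ) : ℝ)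
          (by positivity)).const_mul _
    have h7 : ‖∫ τ in Set.Ioi (0 : ℝ), ((((Set.Iic c).indicator (fun _ => (1 : ℝ)) τ : ℝ) : ℂ) *
        D τ - ((Real.exp (-τ) * p.eval (Real.exp (-τ)) : ℝ) : ℂ) * D τ)‖ ≤
        ∫ τ in Set.Ioi (0 : ℝ), |(Set.Iic c).indicator (fun _ => (1 : ℝ)) τ -
          Real.exp (-τ) * p.eval (Real.exp (-τ))| * 2 := by
      refine norm_integral_le_of_norm_le (hpI.mul_const 2) ?_
      refine (ae_restrict_mem measurableSet_Ioi).mono fun τ hτ => ?_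
      rw [← sub_mul, ← Complex.ofReal_sub, norm_mul, Complex.norm_real, Real.norm_eq_abs]
      exact mul_le_mul_of_nonneg_left (hD.bd τ hτ) (abs_nonneg _)
    rw [integral_mul_const] at h7
    refine h7.trans ?_
    linarith
  have h8 := norm_sub_norm_le (∫ τ in Set.Ioc 0 c, D τ)
    (∫ τ in Set.Ioi (0 : ℝ), ((Real.exp (-τ) * p.eval (Real.exp (-τ)) : ℝ) : ℂ) * D τ)
  linarith

theorem grid (h : ℝ) (hh : 0 ≤ h) (ε : ℝ) (hε : 0 < ε) (n : ℕ) : ∃ (K : ℕ) (ε' : ℝ), 0 < ε' ∧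
    ∀ D : ℝ → ℂ, Ad D → (∀ k : ℕ, 1 ≤ k → k ≤ K →
      ‖∫ τ in Set.Ioi (0 : ℝ), ((Real.exp (-((k : ℝ) * τ)) : ℝ) : ℂ) * D τ‖ ≤ ε') →
      ∀ j : ℕ, j ≤ n → ‖∫ τ in Set.Ioc 0 ((j : ℝ) * h), D τ‖ ≤ ε := by
  induction n with
  | zero =>
    obtain ⟨K, ε', h1, h2⟩ := one_win 0 le_rfl ε hε
    refine ⟨K, ε', h1, fun D hD hk j hj => ?_⟩
    have : j = 0 := by omega
    subst this
    have := h2 D hD hk
    simpa using this
  | succ n ih =>
    obtain ⟨K1, e1, h1, h2⟩ := ih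
    obtain ⟨K2, e2, h3, h4⟩ := one_win (((n + 1 : ℕ) : ℝ) * h) (by positivity) ε hε
    refine ⟨max K1 K2, min e1 e2, lt_min h1 h3, fun D hD hk j hj => ?_⟩
    rcases Nat.lt_or_ge n j with h5 | h5
    · have : j = n + 1 := by omega
      subst this
      exact h4 D hD fun k hk1 hk2 => (hk k hk1 (hk2.trans (le_max_right _ _))).trans
        (min_le_right _ _)
    · exact h2 D hD (fun k hk1 hk2 => (hk k hk1 (hk2.trans (le_max_left _ _))).trans
        (min_le_left _ _)) j h5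

/-- **Laplace transforms control all time windows.** -/
theorem windows (R : ℝ) (ε : ℝ) (hε : 0 < ε) : ∃ (K : ℕ) (ε' : ℝ), 0 < ε' ∧
    ∀ D : ℝ → ℂ, Ad D → (∀ k : ℕ, 1 ≤ k → k ≤ K →
      ‖∫ τ in Set.Ioi (0 : ℝ), ((Real.exp (-((k : ℝ) * τ)) : ℝ) : ℂ) * D τ‖ ≤ ε') →
      ∀ a c : ℝ, 0 ≤ a → a ≤ c → c ≤ R → ‖∫ τ in a..c, D τ‖ ≤ ε := by
  set h : ℝ := ε / 8 with hh
  have hh0 : 0 < h := by positivity
  obtain ⟨K, ε', h1, h2⟩ := grid h hh0.le (ε / 4) (by positivity) ⌈|R| / h⌉₊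
  refine ⟨K, ε', h1, fun D hD hk => ?_⟩
  have key : ∀ c : ℝ, 0 ≤ c → c ≤ R → ‖∫ τ in Set.Ioc 0 c, D τ‖ ≤ ε / 2 := by
    intro c hc hcR
    set j : ℕ := ⌊c / h⌋₊ with hj
    have hj1 : (j : ℝ) * h ≤ c := by
      rw [← le_div_iff₀ hh0]
      exact Nat.floor_le (by positivity)
    have hj2 : c < ((j : ℝ) + 1) * h := by
      rw [← div_lt_iff₀ hh0]
      exact Nat.lt_floor_add_one _
    have hjn : j ≤ ⌈|R| / h⌉₊ := by
      have h3 : (j : ℝ) ≤ ⌈|R| / h⌉₊ := by
        refine le_trans ?_ (Nat.le_ceil _)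
        rw [le_div_iff₀ hh0]
        exact hj1.trans (hcR.trans (le_abs_self R))
      exact_mod_cast h3
    have h4 := h2 D hD hk j hjn
    have hjh0 : (0 : ℝ) ≤ (j : ℝ) * h := by positivity
    have h5 : ∫ τ in Set.Ioc 0 c, D τ =
        (∫ τ in Set.Ioc 0 ((j : ℝ) * h), D τ) + ∫ τ in Set.Ioc ((j : ℝ) * h) c, D τ := by
      rw [← setIntegral_union (Set.Ioc_disjoint_Ioc_of_le le_rfl) measurableSet_Ioc
        (hD.intOn le_rfl) (hD.intOn hjh0), Set.Ioc_union_Ioc_eq_Ioc hjh0 hj1]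
    rw [h5]
    refine (norm_add_le _ _).trans ?_
    have h6 := hD.small hjh0 hj1
    have h7 : 2 * (c - (j : ℝ) * h) ≤ 2 * h := by nlinarith
    have h8 : 2 * h = ε / 4 := by rw [hh]; ring
    linarith
  intro a c ha hac hcR
  rw [intervalIntegral.integral_of_le hac]
  have h5 : ∫ τ in Set.Ioc 0 c, D τ = (∫ τ in Set.Ioc 0 a, D τ) + ∫ τ in Set.Ioc a c, D τ := by
    rw [← setIntegral_union (Set.Ioc_disjoint_Ioc_of_le le_rfl) measurableSet_Ioc
      (hD.intOn le_rfl) (hD.intOn ha), Set.Ioc_union_Ioc_eq_Ioc ha hac]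
  have h6 : ∫ τ in Set.Ioc a c, D τ = (∫ τ in Set.Ioc 0 c, D τ) - ∫ τ in Set.Ioc 0 a, D τ := by
    rw [h5]; ring
  rw [h6]
  refine (norm_sub_le _ _).trans ?_
  have h7 := key c (ha.trans hac) hcR
  have h8 := key a ha (hac.trans hcR)
  linarith

end Pool.Agent.Zk93.TE
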