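import Pool.Agent.Zk11.QQ.Qf
import Pool.Agent.Zk93.TE.Abel
import Pool.Agent.Zk93.TE.Win

/-! Quantum diffusion for the Schrödinger evolution in a fixed realization. -/

set_option autoImplicit false

open scoped BigOperators Topology
open MeasureTheory Filter

namespace Pool.Agent.Zk93.TE

open Pool.Agent.Zk11.QD
open Pool.Agent.Zk60.LL.Dos (dos_mass)
open Pool.Agent.Zk11.QQ (Gc Gc_isG sh ex ex_norm Ph FZ quench)

variable {d : ℕ}

theorem Sp_meas {lam : ℝ} {ω : Zd d → ℝ} {y : Zd d} {ψ : ℝ → Zd d → ℂ} (h : Ev lam ω y ψ)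
    (θ : Fin d → ℝ) : Measurable (Sp θ ψ) := by
  refine measurable_of_tendsto_metrizable' (atTop : Filter (Finset (Zd d)))
    (f := fun s t => ∑ x ∈ s, ex θ x * ((‖ψ t x‖ ^ 2 : ℝ) : ℂ)) (fun s => ?_) ?_
  · refine Continuous.measurable ?_
    refine continuous_finset_sum _ fun x _ => ?_
    exact continuous_const.mul (Complex.continuous_ofReal.comp ((h.cont x).norm.pow 2))
  · rw [tendsto_pi_nhds]
    intro t
    exact (Sp_summable h θ t).of_norm.hasSum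

theorem SB_meas {lam : ℝ} {ω : Zd d → ℝ} {ψ : Zd d → ℝ → Zd d → ℂ} (h : ∀ y, Ev lam ω y (ψ y))
    (θ : Fin d → ℝ) (B : Finset (Zd d)) : Measurable (SB θ B ψ) := by
  unfold SB
  refine measurable_const.mul ?_
  exact Finset.measurable_sum _ fun y _ => Sp_meas (h y).shift θ

/-- the Laplace transform of the profile in macroscopic time -/
theorem SB_lap {lam b : ℝ} {ω : Zd d → ℝ} (hω : ∀ x, |ω x| ≤ b)
    {ψ : Zd d → ℝ → Zd d → ℂ} (h : ∀ y, Ev lam ω y (ψ y)) (θ : Fin d → ℝ)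
    (B : Finset (Zd d)) (T s : ℝ) (hT : 0 < T) (hs : 0 < s) :
    ∫ τ in Set.Ioi (0 : ℝ), ((s * Real.exp (-(s * τ)) : ℝ) : ℂ) * SB θ B ψ (τ * T) =
      (Real.pi : ℂ)⁻¹ * ∫ E : ℝ, FZ lam ((E : ℂ) + ((s / (2 * T) : ℝ) : ℂ) * Complex.I) θ B ω := by
  have hη : 0 < s / (2 * T) := by positivity
  obtain ⟨_, _, h3⟩ := FZ_int hω h θ (s / (2 * T)) hη B
  rw [h3]
  have hpi : (Real.pi : ℂ) ≠ 0 := by exact_mod_cast Real.pi_ne_zero
  rw [inv_mul_cancel_left₀ hpi]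
  set f : ℝ → ℂ := fun t => ((2 * (s / (2 * T)) * Real.exp (-(2 * (s / (2 * T)) * t)) : ℝ) : ℂ) *
    SB θ B ψ t with hf
  have h4 := integral_comp_mul_right_Ioi f 0 hT
  rw [zero_mul] at h4
  have h5 : ∀ τ, f (τ * T) = (T : ℂ)⁻¹ * (((s * Real.exp (-(s * τ)) : ℝ) : ℂ) *
      SB θ B ψ (τ * T)) := by
    intro τ
    rw [hf]
    simp only
    have e1 : 2 * (s / (2 * T)) * (τ * T) = s * τ := by field_simp
    have e2 : 2 * (s / (2 * T)) = T⁻¹ * s := by field_simp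
    rw [e1, e2]
    push_cast
    ring
  simp only [h5] at h4
  rw [integral_const_mul] at h4
  have hT' : (T : ℂ)⁻¹ ≠ 0 := inv_ne_zero (by exact_mod_cast hT.ne')
  apply mul_left_cancel₀ hT'
  rw [h4, Complex.real_smul]
  push_cast
  rfl

theorem Mt_lapc (hd : 3 ≤ d) {V : ℝ} (hV : 0 < V) {c : ℝ} (hc : 0 ≤ c) (s : ℝ) (hs : 0 < s) :
    ∫ τ in Set.Ioi (0 : ℝ), ((s * Real.exp (-(s * τ)) : ℝ) : ℂ) *
      ((Real.pi⁻¹ * Mt d V c τ : ℝ) : ℂ) = (Real.pi : ℂ)⁻¹ * ((Mf d V (2 * c / s) : ℝ) : ℂ) := by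
  have h1 := (Mt_lap hd hV hc s hs).2
  rw [← h1]
  have e1 : ∀ τ : ℝ, ((s * Real.exp (-(s * τ)) : ℝ) : ℂ) * ((Real.pi⁻¹ * Mt d V c τ : ℝ) : ℂ) =
      (Real.pi : ℂ)⁻¹ * ((s * Real.exp (-(s * τ)) * Mt d V c τ : ℝ) : ℂ) := by
    intro τ
    push_cast
    ring
  simp only [e1]
  rw [integral_const_mul, integral_complex_ofReal]

/-- the difference between the profile and its limit -/
noncomputable def Df (V c : ℝ) (θ : Fin d → ℝ) (B : Finset (Zd d)) (ψ : Zd d → ℝ → Zd d → ℂ)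
    (T τ : ℝ) : ℂ := SB θ B ψ (τ * T) - ((Real.pi⁻¹ * Mt d V c τ : ℝ) : ℂ)

theorem Df_ad (hd : 3 ≤ d) {lam : ℝ} {ω : Zd d → ℝ} {ψ : Zd d → ℝ → Zd d → ℂ}
    (h : ∀ y, Ev lam ω y (ψ y)) {V : ℝ} (hV : 0 < V) {c : ℝ} (hc : 0 ≤ c) (θ : Fin d → ℝ)
    (B : Finset (Zd d)) (T : ℝ) : Ad (Df V c θ B ψ T) := by
  have hpi := Real.pi_pos
  constructor
  · unfold Df
    refine AEStronglyMeasurable.sub ?_ ?_
    · exact ((SB_meas h θ B).comp (measurable_id.mul_const T)).aestronglyMeasurable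
    · exact (Complex.continuous_ofReal.comp_stronglyMeasurable
        (stronglyMeasurable_const.mul (Mt_meas hd V c))).aestronglyMeasurable
  · intro τ hτ
    unfold Df
    refine (norm_sub_le _ _).trans ?_
    have h1 := SB_le h θ B (τ * T)
    have h2 := Mt_bd hd hV hc τ hτ.le
    rw [Complex.norm_real, Real.norm_eq_abs, abs_of_nonneg (mul_nonneg (by positivity) h2.1)]
    have h3 : Real.pi⁻¹ * Mt d V c τ ≤ 1 := by
      rw [inv_mul_le_iff₀ hpi, mul_one]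
      exact h2.2
    linarith

theorem Df_lap (hd : 3 ≤ d) {lam b : ℝ} {ω : Zd d → ℝ} (hω : ∀ x, |ω x| ≤ b)
    {ψ : Zd d → ℝ → Zd d → ℂ} (h : ∀ y, Ev lam ω y (ψ y)) {V : ℝ} (hV : 0 < V) {c : ℝ}
    (hc : 0 ≤ c) (θ : Fin d → ℝ) (B : Finset (Zd d)) (T : ℝ) (hT : 0 < T) (k : ℕ) (hk : 1 ≤ k) :
    ‖∫ τ in Set.Ioi (0 : ℝ), ((Real.exp (-((k : ℝ) * τ)) : ℝ) : ℂ) * Df V c θ B ψ T τ‖ ≤
      Real.pi⁻¹ * ‖(∫ E : ℝ, FZ lam ((E : ℂ) + (((k : ℝ) / (2 * T) : ℝ) : ℂ) * Complex.I) θ B ω) -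
        ((Mf d V (2 * c / k) : ℝ) : ℂ)‖ := by
  have hk0 : (0 : ℝ) < k := by exact_mod_cast hk
  have hk1 : (1 : ℝ) ≤ k := by exact_mod_cast hk
  have hpi := Real.pi_pos
  have h1 := SB_lap hω h θ B T k hT hk0
  have h2 := Mt_lapc hd hV hc k hk0
  have hAd := Df_ad hd h hV hc θ B T
  -- integrability of the two parts
  have i1 : IntegrableOn (fun τ : ℝ => (((k : ℝ) * Real.exp (-((k : ℝ) * τ)) : ℝ) : ℂ) *
      SB θ B ψ (τ * T)) (Set.Ioi 0) := by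
    refine Integrable.mono' ((exp_int (k : ℝ) hk0).const_mul (k : ℝ)) ?_
      (Eventually.of_forall fun τ => ?_)
    · exact (Continuous.aestronglyMeasurable (by fun_prop)).mul
        ((SB_meas h θ B).comp (measurable_id.mul_const T)).aestronglyMeasurable
    · rw [norm_mul, Complex.norm_real, Real.norm_eq_abs, abs_of_nonneg (by positivity)]
      exact mul_le_of_le_one_right (by positivity) (SB_le h θ B _)
  have i2 : IntegrableOn (fun τ : ℝ => (((k : ℝ) * Real.exp (-((k : ℝ) * τ)) : ℝ) : ℂ) *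
      ((Real.pi⁻¹ * Mt d V c τ : ℝ) : ℂ)) (Set.Ioi 0) := by
    have h3 := ((Mt_lap hd hV hc (k : ℝ) hk0).1.const_mul Real.pi⁻¹).ofReal (𝕜 := ℂ)
    refine h3.congr (Eventually.of_forall fun τ => ?_)
    simp only
    rw [← Complex.ofReal_mul]
    have e : Real.pi⁻¹ * ((k : ℝ) * Real.exp (-((k : ℝ) * τ)) * Mt d V c τ) =
        (k : ℝ) * Real.exp (-((k : ℝ) * τ)) * (Real.pi⁻¹ * Mt d V c τ) := by ring
    rw [← e]
    rfl
  have h4 : (k : ℂ) * ∫ τ in Set.Ioi (0 : ℝ), ((Real.exp (-((k : ℝ) * τ)) : ℝ) : ℂ) *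
      Df V c θ B ψ T τ = (Real.pi : ℂ)⁻¹ *
        ((∫ E : ℝ, FZ lam ((E : ℂ) + (((k : ℝ) / (2 * T) : ℝ) : ℂ) * Complex.I) θ B ω) -
        ((Mf d V (2 * c / k) : ℝ) : ℂ)) := by
    rw [mul_sub, ← h1, ← h2, ← integral_sub i1 i2, ← integral_const_mul]
    refine integral_congr_ae (Eventually.of_forall fun τ => ?_)
    simp only
    unfold Df
    push_cast
    ring
  have h5 := congrArg norm h4
  rw [norm_mul, norm_mul, Complex.norm_natCast, norm_inv, Complex.norm_real, Real.norm_eq_abs,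
    abs_of_pos hpi] at h5
  rw [← h5]
  exact le_mul_of_one_le_left (norm_nonneg _) hk1

/-- all sites are bounded almost surely -/
theorem bd_ae (μ : Measure ℝ) [IsProbabilityMeasure μ] (b : ℝ) (hb : ∀ᵐ s ∂μ, |s| ≤ b) :
    MeasurableSet {ω : Zd d → ℝ | ∀ x, |ω x| ≤ b} ∧
      (PZ d μ) {ω : Zd d → ℝ | ∀ x, |ω x| ≤ b}ᶜ = 0 := by
  constructor
  · have : {ω : Zd d → ℝ | ∀ x, |ω x| ≤ b} = ⋂ x, {ω : Zd d → ℝ | |ω x| ≤ b} := by
      ext ω
      simp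
    rw [this]
    refine MeasurableSet.iInter fun x => ?_
    exact measurableSet_le (measurable_pi_apply x).abs measurable_const
  · have h1 : ∀ᵐ ω ∂(PZ d μ), ∀ x : Zd d, |ω x| ≤ b := by
      rw [ae_all_iff]
      intro x
      have h2 := (measurePreserving_eval_infinitePi (fun _ : Zd d => μ) x).quasiMeasurePreserving
      exact h2.ae hb
    exact h1

end Pool.Agent.Zk93.TE
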