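import Pool.Agent.Zk11.QD.Zd

/-! The Schrödinger evolution on the lattice: existence, uniqueness, conservation of the mass. -/

set_option autoImplicit false

open scoped BigOperators Topology
open MeasureTheory Filter

namespace Pool.Agent.Zk93.TE

open Pool.Agent.Zk11.QD (Zd HZ IsG)

variable {d : ℕ}

/-- the solution of the Schrödinger equation started at `δ_y` -/
structure Ev (lam : ℝ) (ω : Zd d → ℝ) (y : Zd d) (ψ : ℝ → Zd d → ℂ) : Prop where
  init : ∀ x, ψ 0 x = if x = y then 1 else 0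
  mass : ∀ t, HasSum (fun x => ‖ψ t x‖ ^ 2) 1
  eq : ∀ t x, HasDerivAt (fun s => ψ s x) (-Complex.I * HZ lam ω (ψ t) x) t

/-- the bound of the operator -/
noncomputable def Kb (d : ℕ) (lam b : ℝ) : ℝ := 4 * d + |lam| * |b|

theorem Kb_nonneg (d : ℕ) (lam b : ℝ) : 0 ≤ Kb d lam b := by unfold Kb; positivity

/-- the pointwise majorant -/
noncomputable def mj (lam b : ℝ) (u : Zd d → ℂ) (x : Zd d) : ℝ :=
  ∑ i : Fin d, ((‖u (x + Pi.single i 1)‖ + ‖u x‖) + (‖u (x - Pi.single i 1)‖ + ‖u x‖)) +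
    |lam| * |b| * ‖u x‖

theorem HZ_mj {lam b : ℝ} {ω : Zd d → ℝ} (hω : ∀ x, |ω x| ≤ b) (u : Zd d → ℂ) (x : Zd d) :
    ‖HZ lam ω u x‖ ≤ mj lam b u x := by
  unfold HZ mj
  refine (norm_add_le _ _).trans (add_le_add ?_ ?_)
  · rw [norm_neg]
    refine (norm_sum_le _ _).trans (Finset.sum_le_sum fun i _ => ?_)
    refine (norm_add_le _ _).trans (add_le_add (norm_sub_le _ _) (norm_sub_le _ _))
  · rw [norm_mul, Complex.norm_real, Real.norm_eq_abs, abs_mul]
    have := (hω x).trans (le_abs_self b)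
    gcongr

theorem HZ_sup {lam b : ℝ} {ω : Zd d → ℝ} (hω : ∀ x, |ω x| ≤ b) (u : Zd d → ℂ) (M : ℝ)
    (hM : ∀ x, ‖u x‖ ≤ M) (x : Zd d) : ‖HZ lam ω u x‖ ≤ Kb d lam b * M := by
  refine (HZ_mj hω u x).trans ?_
  unfold mj Kb
  have h1 : ∑ i : Fin d, ((‖u (x + Pi.single i 1)‖ + ‖u x‖) +
      (‖u (x - Pi.single i 1)‖ + ‖u x‖)) ≤ ∑ _i : Fin d, 4 * M := by
    refine Finset.sum_le_sum fun i _ => ?_
    have := hM (x + Pi.single i 1)
    have := hM (x - Pi.single i 1)
    have := hM x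
    linarith
  rw [Finset.sum_const, Finset.card_univ, Fintype.card_fin, nsmul_eq_mul] at h1
  have h2 : |lam| * |b| * ‖u x‖ ≤ |lam| * |b| * M := by
    have := hM x
    gcongr
  calc _ ≤ (d : ℝ) * (4 * M) + |lam| * |b| * M := add_le_add h1 h2
    _ = _ := by ring

theorem hasSum_shift {α : Type*} [AddCommMonoid α] [TopologicalSpace α] {f : Zd d → α} {S : α}
    (h : HasSum f S) (v : Zd d) : HasSum (fun x => f (x + v)) S :=
  (Equiv.addRight v).hasSum_iff.2 h

theorem hasSum_shift' {α : Type*} [AddCommMonoid α] [TopologicalSpace α] {f : Zd d → α} {S : α}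
    (h : HasSum f S) (v : Zd d) : HasSum (fun x => f (x - v)) S :=
  (Equiv.subRight v).hasSum_iff.2 h

theorem mj_sum (lam b : ℝ) (u : Zd d → ℂ) (S : ℝ) (hS : HasSum (fun x => ‖u x‖) S) :
    HasSum (mj lam b u) (Kb d lam b * S) := by
  have h1 : HasSum (fun x => ∑ i : Fin d, ((‖u (x + Pi.single i 1)‖ + ‖u x‖) +
      (‖u (x - Pi.single i 1)‖ + ‖u x‖))) (∑ _i : Fin d, ((S + S) + (S + S))) := by
    refine hasSum_sum fun i _ => ?_
    exact ((hasSum_shift hS _).add hS).add ((hasSum_shift' hS _).add hS)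
  have h2 := h1.add (hS.mul_left (|lam| * |b|))
  have e : Kb d lam b * S = ∑ _i : Fin d, ((S + S) + (S + S)) + |lam| * |b| * S := by
    rw [Finset.sum_const, Finset.card_univ, Fintype.card_fin, nsmul_eq_mul]
    unfold Kb
    ring
  rw [e]
  exact h2

theorem HZ_l1 {lam b : ℝ} {ω : Zd d → ℝ} (hω : ∀ x, |ω x| ≤ b) (u : Zd d → ℂ)
    (hu : Summable fun x => ‖u x‖) : (Summable fun x => ‖HZ lam ω u x‖) ∧
      ∑' x, ‖HZ lam ω u x‖ ≤ Kb d lam b * ∑' x, ‖u x‖ := by
  have h1 := mj_sum lam b u _ hu.hasSum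
  have h2 : Summable fun x => ‖HZ lam ω u x‖ :=
    Summable.of_nonneg_of_le (fun _ => norm_nonneg _) (HZ_mj hω u) h1.summable
  refine ⟨h2, ?_⟩
  rw [← h1.tsum_eq]
  exact h2.tsum_le_tsum (HZ_mj hω u) h1.summable

/-- symmetry: the expectation of the operator is real -/
theorem HZ_real {lam : ℝ} {ω : Zd d → ℝ} (u : Zd d → ℂ) (hu : Summable fun x => ‖u x‖ ^ 2)
    (hs : Summable fun x => (starRingEnd ℂ) (u x) * HZ lam ω u x) :
    (∑' x, (starRingEnd ℂ) (u x) * HZ lam ω u x).im = 0 := by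
  rw [Complex.im_tsum hs]
  -- products of neighbours
  have hpr : ∀ v : Zd d, Summable fun x => ‖u x‖ * ‖u (x + v)‖ := by
    intro v
    have h2 : Summable fun x => ‖u (x + v)‖ ^ 2 := (Equiv.addRight v).summable_iff.2 hu
    refine Summable.of_nonneg_of_le (fun _ => by positivity) (fun x => ?_) (hu.add h2)
    nlinarith [sq_nonneg (‖u x‖ - ‖u (x + v)‖), sq_nonneg (‖u x‖), sq_nonneg (‖u (x + v)‖)]
  have hpc : ∀ v : Zd d, Summable fun x => ((starRingEnd ℂ) (u x) * u (x + v)).im := by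
    intro v
    refine Summable.of_norm_bounded (hpr v) fun x => ?_
    refine (Complex.abs_im_le_norm _).trans (le_of_eq ?_)
    rw [norm_mul, Complex.norm_conj]
  have hanti : ∀ v : Zd d, ∑' x, ((starRingEnd ℂ) (u x) * u (x - v)).im =
      -∑' x, ((starRingEnd ℂ) (u x) * u (x + v)).im := by
    intro v
    rw [← (Equiv.addRight v).tsum_eq, ← tsum_neg]
    refine tsum_congr fun x => ?_
    simp only [Equiv.coe_addRight, add_sub_cancel_right]
    rw [← Complex.conj_im, map_mul, Complex.conj_conj, mul_comm]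
  have hpc' : ∀ v : Zd d, Summable fun x => ((starRingEnd ℂ) (u x) * u (x - v)).im := by
    intro v
    have := hpc (-v)
    simpa [sub_eq_add_neg] using this
  have hterm : ∀ x, ((starRingEnd ℂ) (u x) * HZ lam ω u x).im =
      ∑ i : Fin d, (-((starRingEnd ℂ) (u x) * u (x + Pi.single i 1)).im -
        ((starRingEnd ℂ) (u x) * u (x - Pi.single i 1)).im) := by
    intro x
    have e1 : (starRingEnd ℂ) (u x) * HZ lam ω u x =
        ∑ i : Fin d, (-((starRingEnd ℂ) (u x) * u (x + Pi.single i 1)) -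
          ((starRingEnd ℂ) (u x) * u (x - Pi.single i 1))) +
        ((2 * d + lam * ω x : ℝ) : ℂ) * (u x * (starRingEnd ℂ) (u x)) := by
      unfold HZ
      have e2 : ∑ i : Fin d, ((u (x + Pi.single i 1) - u x) + (u (x - Pi.single i 1) - u x)) =
          ∑ i : Fin d, (u (x + Pi.single i 1) + u (x - Pi.single i 1)) - 2 * (d : ℂ) * u x := by
        rw [Finset.sum_add_distrib, Finset.sum_sub_distrib, Finset.sum_sub_distrib,
          Finset.sum_add_distrib]
        simp
        ring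
      have e3 : ∑ i : Fin d, (-((starRingEnd ℂ) (u x) * u (x + Pi.single i 1)) -
          ((starRingEnd ℂ) (u x) * u (x - Pi.single i 1))) =
          -((starRingEnd ℂ) (u x) * ∑ i : Fin d, (u (x + Pi.single i 1) +
            u (x - Pi.single i 1))) := by
        rw [Finset.mul_sum, ← Finset.sum_neg_distrib]
        exact Finset.sum_congr rfl fun i _ => by ring
      rw [e2, e3]
      push_cast
      ring
    rw [e1, Complex.add_im, Complex.mul_conj, ← Complex.ofReal_mul, Complex.ofReal_im, add_zero,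
      Complex.im_sum]
    refine Finset.sum_congr rfl fun i _ => ?_
    rw [Complex.sub_im, Complex.neg_im]
  rw [tsum_congr hterm, Summable.tsum_finsetSum (fun i _ => (hpc _).neg.sub (hpc' _))]
  refine Finset.sum_eq_zero fun i _ => ?_
  rw [Summable.tsum_sub (hpc _).neg (hpc' _), tsum_neg, hanti, sub_neg_eq_add,
    neg_add_cancel]

/-- the iterates -/
noncomputable def it (lam : ℝ) (ω : Zd d → ℝ) (y : Zd d) : ℕ → Zd d → ℂ
  | 0 => fun x => if x = y then 1 else 0
  | n + 1 => HZ lam ω (it lam ω y n)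

theorem it_l1 {lam b : ℝ} {ω : Zd d → ℝ} (hω : ∀ x, |ω x| ≤ b) (y : Zd d) (n : ℕ) :
    (Summable fun x => ‖it lam ω y n x‖) ∧ ∑' x, ‖it lam ω y n x‖ ≤ Kb d lam b ^ n := by
  induction n with
  | zero =>
    have h1 : HasSum (fun x => ‖it lam ω y 0 x‖) 1 := by
      have := hasSum_ite_eq y (1 : ℝ)
      refine this.congr_fun ?_ |> fun h => h
      intro x
      unfold it
      split_ifs <;> simp
    exact ⟨h1.summable, by rw [h1.tsum_eq, pow_zero]⟩
  | succ n ih =>
    obtain ⟨h1, h2⟩ := HZ_l1 (lam := lam) hω (it lam ω y n) ih.1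
    refine ⟨h1, h2.trans ?_⟩
    rw [pow_succ, mul_comm _ (Kb d lam b)]
    exact mul_le_mul_of_nonneg_left ih.2 (Kb_nonneg d lam b)

theorem it_sup {lam b : ℝ} {ω : Zd d → ℝ} (hω : ∀ x, |ω x| ≤ b) (y : Zd d) (n : ℕ) (x : Zd d) :
    ‖it lam ω y n x‖ ≤ Kb d lam b ^ n := by
  obtain ⟨h1, h2⟩ := it_l1 (lam := lam) hω y n
  exact (h1.le_tsum x fun _ _ => norm_nonneg _).trans h2

/-- the coefficients of the exponential series -/
noncomputable def co (n : ℕ) (t : ℝ) : ℂ := (-Complex.I * t) ^ n / (n.factorial : ℂ)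

theorem co_norm (n : ℕ) (t : ℝ) : ‖co n t‖ = |t| ^ n / (n.factorial : ℝ) := by
  unfold co
  rw [norm_div, norm_pow, norm_mul, norm_neg, Complex.norm_I, one_mul, Complex.norm_real,
    Real.norm_eq_abs, Complex.norm_natCast]

theorem ex_summable (K T : ℝ) : Summable fun n : ℕ => T ^ n / (n.factorial : ℝ) * K ^ n := by
  have h := Real.summable_pow_div_factorial (T * K)
  refine h.congr fun n => ?_
  rw [mul_pow]
  ring

theorem ex_tsum (K T : ℝ) : ∑' n : ℕ, T ^ n / (n.factorial : ℝ) * K ^ n = Real.exp (T * K) := by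
  rw [Real.exp_eq_exp_ℝ, NormedSpace.exp_eq_tsum_div]
  refine tsum_congr fun n => ?_
  rw [mul_pow]
  ring

theorem ser (a : ℕ → ℂ) (K : ℝ) (ha : ∀ n, ‖a n‖ ≤ K ^ n) (t : ℝ) :
    Summable fun n => co n t * a n := by
  refine Summable.of_norm_bounded (ex_summable K |t|) fun n => ?_
  rw [norm_mul, co_norm]
  gcongr
  exact ha n

theorem co_deriv (n : ℕ) (t : ℝ) : HasDerivAt (co (n + 1)) (-Complex.I * co n t) t := by
  unfold co
  have h1 : HasDerivAt (fun s : ℝ => -Complex.I * (s : ℂ)) (-Complex.I) t := by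
    have := (Complex.ofRealCLM.hasDerivAt (x := t)).const_mul (-Complex.I)
    simpa using this
  have h2 := (h1.pow (n + 1)).div_const ((n + 1).factorial : ℂ)
  refine h2.congr_deriv ?_
  have h3 : ((n + 1).factorial : ℂ) = (n + 1) * (n.factorial : ℂ) := by
    rw [Nat.factorial_succ]; push_cast; ring
  have h4 : (n.factorial : ℂ) ≠ 0 := by exact_mod_cast n.factorial_ne_zero
  have h5 : (n : ℂ) + 1 ≠ 0 := by exact_mod_cast n.succ_ne_zero
  rw [h3]
  simp only [Nat.add_sub_cancel]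
  field_simp
  push_cast
  ring

theorem ser_deriv (a : ℕ → ℂ) (K : ℝ) (hK : 0 ≤ K) (ha : ∀ n, ‖a n‖ ≤ K ^ n) (t : ℝ) :
    HasDerivAt (fun s : ℝ => ∑' n, co n s * a n) (-Complex.I * ∑' n, co n t * a (n + 1)) t := by
  set T : ℝ := |t| + 1 with hT
  have hT0 : 0 < T := by have := abs_nonneg t; linarith
  set u : ℕ → ℝ := fun n => match n with
    | 0 => 0
    | n + 1 => T ^ n / (n.factorial : ℝ) * K ^ (n + 1) with hu
  set g' : ℕ → ℝ → ℂ := fun n s => match n with
    | 0 => 0
    | n + 1 => -Complex.I * co n s * a (n + 1) with hg'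
  have hsu : Summable u := by
    rw [← summable_nat_add_iff 1]
    refine ((ex_summable K T).mul_left K).congr fun n => ?_
    rw [hu]
    simp only
    rw [pow_succ]
    ring
  have hmem : t ∈ Set.Ioo (-T) T := by
    have := neg_abs_le t
    have := le_abs_self t
    constructor <;> linarith
  have hb : ∀ n s, s ∈ Set.Ioo (-T) T → ‖g' n s‖ ≤ u n := by
    intro n s hs
    cases n with
    | zero => simp [hg', hu]
    | succ n =>
      simp only [hg', hu]
      rw [norm_mul, norm_mul, norm_neg, Complex.norm_I, one_mul, co_norm]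
      have h1 : |s| ≤ T := by
        rw [abs_le]
        exact ⟨hs.1.le, hs.2.le⟩
      have h2 := ha (n + 1)
      gcongr
  have hder := hasDerivAt_tsum_of_isPreconnected (g := fun n s => co n s * a n) (g' := g') hsu
    isOpen_Ioo (isPreconnected_Ioo (a := -T) (b := T)) (y₀ := t) (y := t) ?_ hb hmem
    (ser a K ha t) hmem
  · refine hder.congr_deriv ?_
    have h1 : Summable fun n => g' n t := Summable.of_norm_bounded hsu fun n => hb n t hmem
    rw [h1.tsum_eq_zero_add, ← tsum_mul_left]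
    simp only [hg', zero_add]
    refine tsum_congr fun n => by ring
  · intro n s _
    cases n with
    | zero =>
      simp only [hg']
      have : (fun s : ℝ => co 0 s * a 0) = fun _ => a 0 := by
        funext s
        simp [co]
      rw [this]
      exact hasDerivAt_const _ _
    | succ n =>
      simp only [hg']
      exact (co_deriv n s).mul_const _

/-- the evolution -/
noncomputable def psi (lam : ℝ) (ω : Zd d → ℝ) (y : Zd d) (t : ℝ) (x : Zd d) : ℂ :=
  ∑' n, co n t * it lam ω y n x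

theorem psi_hasSum {lam b : ℝ} {ω : Zd d → ℝ} (hω : ∀ x, |ω x| ≤ b) (y : Zd d) (t : ℝ)
    (x : Zd d) : HasSum (fun n => co n t * it lam ω y n x) (psi lam ω y t x) :=
  (ser _ _ (fun n => it_sup hω y n x) t).hasSum

theorem HZ_hasSum (lam : ℝ) (ω : Zd d → ℝ) {f : ℕ → Zd d → ℂ} {u : Zd d → ℂ}
    (h : ∀ x, HasSum (fun n => f n x) (u x)) (x : Zd d) :
    HasSum (fun n => HZ lam ω (f n) x) (HZ lam ω u x) := by
  unfold HZ
  exact ((hasSum_sum fun i _ => ((h _).sub (h x)).add ((h _).sub (h x))).neg).add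
    ((h x).mul_left _)

theorem HZ_smul (lam : ℝ) (ω : Zd d → ℝ) (c : ℂ) (u : Zd d → ℂ) (x : Zd d) :
    HZ lam ω (fun x => c * u x) x = c * HZ lam ω u x := by
  unfold HZ
  rw [mul_add, mul_neg, Finset.mul_sum]
  congr 1
  · congr 1
    exact Finset.sum_congr rfl fun i _ => by ring
  · ring

theorem HZ_sub (lam : ℝ) (ω : Zd d → ℝ) (u v : Zd d → ℂ) (x : Zd d) :
    HZ lam ω (fun x => u x - v x) x = HZ lam ω u x - HZ lam ω v x := by
  unfold HZ
  have : ∑ i : Fin d, ((u (x + Pi.single i 1) - v (x + Pi.single i 1) - (u x - v x)) +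
      (u (x - Pi.single i 1) - v (x - Pi.single i 1) - (u x - v x))) =
      ∑ i : Fin d, ((u (x + Pi.single i 1) - u x) + (u (x - Pi.single i 1) - u x)) -
      ∑ i : Fin d, ((v (x + Pi.single i 1) - v x) + (v (x - Pi.single i 1) - v x)) := by
    rw [← Finset.sum_sub_distrib]
    exact Finset.sum_congr rfl fun i _ => by ring
  rw [this]
  ring

theorem psi_H {lam b : ℝ} {ω : Zd d → ℝ} (hω : ∀ x, |ω x| ≤ b) (y : Zd d) (t : ℝ) (x : Zd d) :
    HasSum (fun n => co n t * it lam ω y (n + 1) x) (HZ lam ω (psi lam ω y t) x) := by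
  have h := HZ_hasSum lam ω (fun x => psi_hasSum (lam := lam) hω y t x) x
  have h' : (fun n => HZ lam ω (fun x => co n t * it lam ω y n x) x) =
      fun n => co n t * it lam ω y (n + 1) x := by
    funext n
    rw [HZ_smul]
    rfl
  rw [h'] at h
  exact h

theorem psi_deriv {lam b : ℝ} {ω : Zd d → ℝ} (hω : ∀ x, |ω x| ≤ b) (y : Zd d) (t : ℝ)
    (x : Zd d) : HasDerivAt (fun s => psi lam ω y s x) (-Complex.I * HZ lam ω (psi lam ω y t) x)
      t := by
  have h := ser_deriv (fun n => it lam ω y n x) (Kb d lam b) (Kb_nonneg _ _ _)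
    (fun n => it_sup hω y n x) t
  rw [← (psi_H hω y t x).tsum_eq]
  exact h

theorem psi_zero (lam : ℝ) (ω : Zd d → ℝ) (y x : Zd d) :
    psi lam ω y 0 x = if x = y then 1 else 0 := by
  unfold psi
  rw [tsum_eq_single 0]
  · simp [co, it]
  · intro n hn
    have : co n 0 = 0 := by
      unfold co
      simp [hn]
    rw [this, zero_mul]

/-- the majorant on a time interval -/
noncomputable def mt (lam : ℝ) (ω : Zd d → ℝ) (y : Zd d) (T : ℝ) (x : Zd d) : ℝ :=
  ∑' n : ℕ, T ^ n / (n.factorial : ℝ) * ‖it lam ω y n x‖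

theorem mt_sum {lam b : ℝ} {ω : Zd d → ℝ} (hω : ∀ x, |ω x| ≤ b) (y : Zd d) (T : ℝ)
    (hT : 0 ≤ T) : (∀ x, Summable fun n : ℕ => T ^ n / (n.factorial : ℝ) * ‖it lam ω y n x‖) ∧
      Summable (mt lam ω y T) := by
  have h1 : Summable fun p : ℕ × Zd d => T ^ p.1 / (p.1.factorial : ℝ) * ‖it lam ω y p.1 p.2‖ := by
    rw [summable_prod_of_nonneg (fun p => by positivity)]
    refine ⟨fun n => ?_, ?_⟩
    · exact ((it_l1 (lam := lam) hω y n).1).mul_left (T ^ n / (n.factorial : ℝ))
    refine Summable.of_nonneg_of_le (fun n => tsum_nonneg fun x => by positivity) (fun n => ?_)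
      (ex_summable (Kb d lam b) T)
    have h3 := (it_l1 (lam := lam) hω y n).2
    have h4 : ∑' x : Zd d, T ^ n / (n.factorial : ℝ) * ‖it lam ω y n x‖ ≤
        T ^ n / (n.factorial : ℝ) * Kb d lam b ^ n := by
      rw [tsum_mul_left]
      gcongr
    exact h4
  have h2 := h1.prod_symm
  exact ⟨fun x => h2.prod_factor x, h2.prod⟩

theorem psi_le {lam b : ℝ} {ω : Zd d → ℝ} (hω : ∀ x, |ω x| ≤ b) (y : Zd d) (T t : ℝ)
    (ht : |t| ≤ T) (x : Zd d) : ‖psi lam ω y t x‖ ≤ mt lam ω y T x := by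
  have hT : 0 ≤ T := (abs_nonneg t).trans ht
  refine tsum_of_norm_bounded ((mt_sum hω y T hT).1 x).hasSum fun n => ?_
  rw [norm_mul, co_norm]
  gcongr

theorem mt_nonneg (lam : ℝ) (ω : Zd d → ℝ) (y : Zd d) (T : ℝ) (hT : 0 ≤ T) (x : Zd d) :
    0 ≤ mt lam ω y T x := tsum_nonneg fun n => by positivity

theorem psi_mass {lam b : ℝ} {ω : Zd d → ℝ} (hω : ∀ x, |ω x| ≤ b) (y : Zd d) (t : ℝ) :
    HasSum (fun x => ‖psi lam ω y t x‖ ^ 2) 1 := by
  -- summability
  have hsum : ∀ T, 0 ≤ T → ∀ s, |s| ≤ T → Summable fun x => ‖psi lam ω y s x‖ := fun T hT s hs =>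
    Summable.of_nonneg_of_le (fun _ => norm_nonneg _) (psi_le hω y T s hs) (mt_sum hω y T hT).2
  have hsup : ∀ T, 0 ≤ T → ∀ s, |s| ≤ T → ∀ x, ‖psi lam ω y s x‖ ≤ ∑' z, mt lam ω y T z :=
    fun T hT s hs x => (psi_le hω y T s hs x).trans
      ((mt_sum hω y T hT).2.le_tsum x fun z _ => mt_nonneg lam ω y T hT z)
  have hsq : ∀ s, Summable fun x => ‖psi lam ω y s x‖ ^ 2 := by
    intro s
    refine Summable.of_nonneg_of_le (fun _ => by positivity) (fun x => ?_)
      ((hsum |s| (abs_nonneg s) s le_rfl).mul_left (∑' z, mt lam ω y |s| z))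
    rw [sq]
    exact mul_le_mul_of_nonneg_right (hsup |s| (abs_nonneg s) s le_rfl x) (norm_nonneg _)
  have hcs : ∀ s, Summable fun x => (starRingEnd ℂ) (psi lam ω y s x) *
      HZ lam ω (psi lam ω y s) x := by
    intro s
    set M := ∑' z, mt lam ω y |s| z
    refine Summable.of_norm_bounded
      ((hsum |s| (abs_nonneg s) s le_rfl).mul_right (Kb d lam b * M)) fun x => ?_
    rw [norm_mul, Complex.norm_conj]
    exact mul_le_mul_of_nonneg_left (HZ_sup hω _ M (hsup |s| (abs_nonneg s) s le_rfl) x)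
      (norm_nonneg _)
  set S : ℝ → ℝ := fun s => ∑' x, ‖psi lam ω y s x‖ ^ 2 with hS
  have hder : ∀ s, HasDerivAt S 0 s := by
    intro s
    set T : ℝ := |s| + 1 with hT
    have hT0 : 0 ≤ T := by have := abs_nonneg s; linarith
    have hmem : s ∈ Set.Ioo (-T) T := by
      have := neg_abs_le s
      have := le_abs_self s
      constructor <;> linarith
    set M := ∑' z, mt lam ω y T z with hM
    have hM0 : 0 ≤ M := tsum_nonneg fun z => mt_nonneg lam ω y T hT0 z
    have h1 := hasDerivAt_tsum_of_isPreconnected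
      (g := fun x s => ‖psi lam ω y s x‖ ^ 2)
      (g' := fun x s => 2 * ((starRingEnd ℂ) (psi lam ω y s x) * HZ lam ω (psi lam ω y s) x).im)
      (u := fun x => 2 * (mt lam ω y T x * (Kb d lam b * M)))
      ((((mt_sum hω y T hT0).2).mul_right _).mul_left 2)
      isOpen_Ioo (isPreconnected_Ioo (a := -T) (b := T)) (y₀ := s) (y := s) ?_ ?_ hmem (hsq s) hmem
    · refine h1.congr_deriv ?_
      rw [tsum_mul_left, ← Complex.im_tsum (hcs s), HZ_real _ (hsq s) (hcs s), mul_zero]
    · intro x r _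
      have h2 := (psi_deriv (lam := lam) hω y r x).norm_sq
      refine h2.congr_deriv ?_
      congr 1
      rw [Complex.inner]
      simp [Complex.mul_re, Complex.mul_im]
      ring
    · intro x r hr
      have hr' : |r| ≤ T := by
        rw [abs_le]
        exact ⟨hr.1.le, hr.2.le⟩
      rw [norm_mul, Real.norm_eq_abs, Real.norm_eq_abs, abs_of_pos (by norm_num : (0 : ℝ) < 2)]
      refine mul_le_mul_of_nonneg_left ((Complex.abs_im_le_norm _).trans ?_) (by norm_num)
      rw [norm_mul, Complex.norm_conj]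
      exact mul_le_mul (psi_le hω y T r hr' x) (HZ_sup hω _ M (hsup T hT0 r hr') x)
        (norm_nonneg _) (mt_nonneg lam ω y T hT0 x)
  have hconst : S t = S 0 := by
    refine is_const_of_deriv_eq_zero (fun s => (hder s).differentiableAt) (fun s => (hder s).deriv)
      t 0
  have h0 : S 0 = 1 := by
    rw [hS]
    simp only [psi_zero]
    have : ∀ x : Zd d, ‖(if x = y then (1 : ℂ) else 0)‖ ^ 2 = if x = y then (1 : ℝ) else 0 := by
      intro x
      split_ifs <;> simp
    rw [tsum_congr this, tsum_ite_eq]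
  rw [← h0, ← hconst]
  exact (hsq t).hasSum

theorem psi_ev {lam b : ℝ} {ω : Zd d → ℝ} (hω : ∀ x, |ω x| ≤ b) (y : Zd d) :
    Ev lam ω y (psi lam ω y) :=
  ⟨psi_zero lam ω y, psi_mass hω y, psi_deriv hω y⟩

/-- uniqueness for a bounded solution, forward in time -/
theorem uniq0 {lam b : ℝ} {ω : Zd d → ℝ} (hω : ∀ x, |ω x| ≤ b) (c : ℂ) (hc : ‖c‖ = 1)
    (u : ℝ → Zd d → ℂ) (h0 : ∀ x, u 0 x = 0) (hb : ∀ t x, ‖u t x‖ ≤ 2)
    (hd : ∀ t x, HasDerivAt (fun s => u s x) (c * HZ lam ω (u t) x) t) (t : ℝ) (ht : 0 ≤ t)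
    (x : Zd d) : u t x = 0 := by
  set K := Kb d lam b with hK
  have hK0 : 0 ≤ K := Kb_nonneg _ _ _
  have key : ∀ n : ℕ, ∀ s, 0 ≤ s → ∀ x, ‖u s x‖ ≤ 2 * (K ^ n * (s ^ n / (n.factorial : ℝ))) := by
    intro n
    induction n with
    | zero =>
      intro s _ x
      simpa using hb s x
    | succ n ih =>
      intro s hs x
      have hB : ∀ r : ℝ, HasDerivAt
          (fun r => 2 * (K ^ (n + 1) * (r ^ (n + 1) / ((n + 1).factorial : ℝ))))
          (K * (2 * (K ^ n * (r ^ n / (n.factorial : ℝ))))) r := by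
        intro r
        have h1 := ((((hasDerivAt_id r).pow (n + 1)).div_const
          ((n + 1).factorial : ℝ)).const_mul (K ^ (n + 1))).const_mul 2
        refine h1.congr_deriv ?_
        have h3 : ((n + 1).factorial : ℝ) = (n + 1) * (n.factorial : ℝ) := by
          rw [Nat.factorial_succ]; push_cast; ring
        have h4 : (n.factorial : ℝ) ≠ 0 := by exact_mod_cast n.factorial_ne_zero
        have h5 : (n : ℝ) + 1 ≠ 0 := by positivity
        rw [h3]
        simp only [id, Nat.add_sub_cancel]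
        field_simp
        push_cast
        ring
      refine image_norm_le_of_norm_deriv_right_le_deriv_boundary' (f := fun r => u r x)
        (f' := fun r => c * HZ lam ω (u r) x) (a := 0) (b := s)
        (fun r _ => (hd r x).continuousAt.continuousWithinAt)
        (fun r _ => (hd r x).hasDerivWithinAt) ?_
        (fun r _ => (hB r).continuousAt.continuousWithinAt)
        (fun r _ => (hB r).hasDerivWithinAt) ?_ ⟨hs, le_rfl⟩
      · rw [h0, norm_zero]
        simp
      · intro r hr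
        rw [norm_mul, hc, one_mul]
        exact HZ_sup hω _ _ (ih r hr.1) x
  have hlim : Tendsto (fun n : ℕ => 2 * (K ^ n * (t ^ n / (n.factorial : ℝ)))) atTop (𝓝 0) := by
    have h1 := (FloorSemiring.tendsto_pow_div_factorial_atTop (K * t)).const_mul 2
    rw [mul_zero] at h1
    refine h1.congr fun n => ?_
    rw [mul_pow]
    ring
  have h2 : ‖u t x‖ ≤ 0 := ge_of_tendsto' hlim fun n => key n t ht x
  exact norm_le_zero_iff.1 h2

theorem Ev.le_one {lam : ℝ} {ω : Zd d → ℝ} {y : Zd d} {ψ : ℝ → Zd d → ℂ} (h : Ev lam ω y ψ)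
    (t : ℝ) (x : Zd d) : ‖ψ t x‖ ≤ 1 := by
  have h1 := le_hasSum (h.mass t) x fun z _ => by positivity
  have h2 : ‖ψ t x‖ ^ 2 ≤ 1 ^ 2 := by rw [one_pow]; exact h1
  exact (pow_le_pow_iff_left₀ (norm_nonneg _) zero_le_one (by norm_num)).1 h2

theorem ev_unique {lam b : ℝ} {ω : Zd d → ℝ} (hω : ∀ x, |ω x| ≤ b) {y : Zd d}
    {φ ψ : ℝ → Zd d → ℂ} (h1 : Ev lam ω y φ) (h2 : Ev lam ω y ψ) : φ = ψ := by
  funext t x
  have hb : ∀ t x, ‖φ t x - ψ t x‖ ≤ 2 := fun t x =>
    (norm_sub_le _ _).trans (by have := h1.le_one t x; have := h2.le_one t x; linarith)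
  have hd : ∀ t x, HasDerivAt (fun s => φ s x - ψ s x)
      (-Complex.I * HZ lam ω (fun x => φ t x - ψ t x) x) t := by
    intro t x
    refine ((h1.eq t x).sub (h2.eq t x)).congr_deriv ?_
    rw [HZ_sub]
    ring
  rcases le_total 0 t with ht | ht
  · have := uniq0 (lam := lam) hω (-Complex.I) (by simp) (fun s x => φ s x - ψ s x)
      (fun x => by simp [h1.init, h2.init]) hb hd t ht x
    exact sub_eq_zero.1 this
  · have := uniq0 (lam := lam) hω Complex.I (by simp) (fun s x => φ (-s) x - ψ (-s) x)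
      (fun x => by simp [h1.init, h2.init]) (fun t x => hb (-t) x) (fun s x => ?_) (-t)
      (by linarith) x
    · simp only [neg_neg] at this
      exact sub_eq_zero.1 this
    · have h3 := (hd (-s) x).scomp s (hasDerivAt_neg s)
      refine h3.congr_deriv ?_
      rw [neg_smul, one_smul]
      ring

end Pool.Agent.Zk93.TE
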